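import Mathlib

set_option autoImplicit false

/-!
The ring `B = k[[t]][[w]]`, powers of its maximal ideal, lengths and completeness.
-/

namespace Pool.Agent.H482Z.BCM

universe u

open PowerSeries IsLocalRing

theorem length_eq_of_residue {A S : Type u} [CommRing A] [CommRing S] [IsLocalRing A]
    [IsLocalRing S] [Algebra A S] [IsLocalHom (algebraMap A S)]
    (h : ∀ z : S, ∃ a : A, z - algebraMap A S a ∈ maximalIdeal S)
    (M : Type u) [AddCommGroup M] [Module A M] [Module S M] [IsScalarTower A S M] :
    Module.length A M = Module.length S M := by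
  rw [IsLocalRing.length_restrictScalars A S M]
  have hs : Function.Surjective (algebraMap (ResidueField A) (ResidueField S)) := by
    intro z
    obtain ⟨z, rfl⟩ := residue_surjective z
    obtain ⟨a, ha⟩ := h z
    refine ⟨residue A a, ?_⟩
    rw [ResidueField.algebraMap_residue, eq_comm, ← sub_eq_zero, ← map_sub,
      residue_eq_zero_iff]
    exact ha
  rw [Module.length_eq_of_surjective (M := ResidueField S) hs,
    Module.length_eq_one (R := ResidueField S) (M := ResidueField S), mul_one]

variable (k : Type u) [Field k]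

/-- the ring `k[[t]][[w]]` -/
abbrev B : Type u := PowerSeries (PowerSeries k)

/-- the inner variable -/
noncomputable def t : B k := C X

/-- the outer variable -/
noncomputable def w : B k := X

variable {k}

theorem w_ne : w k ≠ 0 := X_ne_zero

theorem t_ne : t k ≠ 0 := by
  intro h
  have := congrArg constantCoeff h
  simp [t, X_ne_zero] at this

theorem mem_max_iff {f : B k} :
    f ∈ maximalIdeal (B k) ↔ constantCoeff (constantCoeff f) = 0 := by
  rw [mem_maximalIdeal, mem_nonunits_iff, isUnit_iff_constantCoeff, isUnit_iff_constantCoeff,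
    isUnit_iff_ne_zero, not_not]

theorem t_mem : t k ∈ maximalIdeal (B k) := by rw [mem_max_iff]; simp [t]

theorem w_mem : w k ∈ maximalIdeal (B k) := by rw [mem_max_iff]; simp [w]

theorem decomp (f : B k) : ∃ g : B k, f = w k * g + C (constantCoeff f) :=
  ⟨_, eq_X_mul_shift_add_const f⟩

theorem mem_max_decomp {f : B k} (hf : f ∈ maximalIdeal (B k)) :
    ∃ a b : B k, f = t k * a + w k * b := by
  obtain ⟨g, hg⟩ := decomp f
  obtain ⟨c, hc⟩ := X_dvd_iff.mpr (mem_max_iff.mp hf)
  refine ⟨C c, g, ?_⟩
  rw [hg, hc, map_mul, t]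
  ring

theorem res_B (f : B k) : ∃ a : k, f - algebraMap k (B k) a ∈ maximalIdeal (B k) := by
  refine ⟨constantCoeff (constantCoeff f), ?_⟩
  rw [mem_max_iff]
  simp [PowerSeries.algebraMap_apply]

/-- the filtration by total order -/
def F (m : ℕ) : Ideal (B k) where
  carrier := {f | ∀ i, (X : PowerSeries k) ^ (m - i) ∣ coeff i f}
  add_mem' := fun ha hb i => by rw [map_add]; exact dvd_add (ha i) (hb i)
  zero_mem' := fun i => by simp
  smul_mem' := fun g f hf i => by
    rw [smul_eq_mul, coeff_mul]
    refine Finset.dvd_sum fun p hp => Dvd.dvd.mul_left ((pow_dvd_pow _ ?_).trans (hf p.2)) _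
    have : p.1 + p.2 = i := by simpa using hp
    omega

theorem pow_eq_F (m : ℕ) : maximalIdeal (B k) ^ m = F m := by
  induction m with
  | zero =>
    rw [pow_zero, Ideal.one_eq_top, eq_comm, eq_top_iff]
    intro f _ i
    simp
  | succ m ih =>
    apply le_antisymm
    · rw [pow_succ', ih, Ideal.mul_le]
      intro r hr s hs
      obtain ⟨a, b, rfl⟩ := mem_max_decomp hr
      have h1 : t k * s ∈ F (m + 1) := by
        intro i
        rw [t, coeff_C_mul]
        exact (pow_dvd_pow _ (by omega : m + 1 - i ≤ (m - i) + 1)).trans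
          (by rw [pow_succ']; exact mul_dvd_mul_left _ (hs i))
      have h2 : w k * s ∈ F (m + 1) := by
        intro i
        rcases i with _ | i
        · simp [w]
        · rw [w, coeff_succ_X_mul, Nat.add_sub_add_right]
          exact hs i
      have : (t k * a + w k * b) * s = a * (t k * s) + b * (w k * s) := by ring
      rw [this]
      exact add_mem (Ideal.mul_mem_left _ _ h1) (Ideal.mul_mem_left _ _ h2)
    · intro f hf
      rw [eq_X_mul_shift_add_const f]
      refine add_mem ?_ ?_
      · rw [pow_succ']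
        refine Ideal.mul_mem_mul w_mem ?_
        rw [ih]
        intro i
        rw [coeff_mk, ← Nat.add_sub_add_right m 1 i]
        exact hf (i + 1)
      · obtain ⟨c, hc⟩ := hf 0
        rw [coeff_zero_eq_constantCoeff] at hc
        rw [hc, map_mul, map_pow]
        exact Ideal.mul_mem_right _ _ (Ideal.pow_mem_pow t_mem _)

theorem mem_pow_iff {m : ℕ} {f : B k} : f ∈ maximalIdeal (B k) ^ m ↔
    ∀ i j, i + j < m → coeff j (coeff i f) = 0 := by
  rw [pow_eq_F]
  constructor
  · intro h i j hij
    exact X_pow_dvd_iff.mp (h i) j (by omega)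
  · intro h i
    exact X_pow_dvd_iff.mpr fun j hj => h i j (by omega)

theorem mem_pow_of_w_mul {m : ℕ} {f : B k} (h : w k * f ∈ maximalIdeal (B k) ^ (m + 1)) :
    f ∈ maximalIdeal (B k) ^ m := by
  rw [mem_pow_iff] at h ⊢
  intro i j hij
  have := h (i + 1) j (by omega)
  rwa [w, coeff_succ_X_mul] at this

theorem tpow_not_mem (m : ℕ) (b : B k) :
    t k ^ m + w k * b ∉ maximalIdeal (B k) ^ (m + 1) := by
  rw [mem_pow_iff]
  intro h
  have := h 0 m (by omega)
  simp [t, w, ← map_pow, coeff_X_pow] at this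

theorem precomplete (f : ℕ → B k)
    (hf : ∀ n, f n - f (n + 1) ∈ maximalIdeal (B k) ^ n) :
    ∃ g : B k, ∀ n, f n - g ∈ maximalIdeal (B k) ^ n := by
  have h1 : ∀ n m, f n - f (n + m) ∈ maximalIdeal (B k) ^ n := by
    intro n m
    induction m with
    | zero => simp
    | succ m ih =>
      have := add_mem ih (Ideal.pow_le_pow_right (Nat.le_add_right n m) (hf (n + m)))
      simpa [add_assoc] using this
  refine ⟨mk fun i => mk fun j => coeff j (coeff i (f (i + j + 1))), fun n => ?_⟩
  rw [mem_pow_iff]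
  intro i j hij
  obtain ⟨m, rfl⟩ := Nat.exists_eq_add_of_le (show i + j + 1 ≤ n by omega)
  have := mem_pow_iff.mp (h1 (i + j + 1) m) i j (by omega)
  simp only [map_sub, coeff_mk] at this ⊢
  rw [sub_eq_zero] at this ⊢
  exact this.symm

/-- the coefficients in a square -/
noncomputable def Φ (m : ℕ) : B k →ₗ[k] (Fin m × Fin m → k) :=
  LinearMap.pi fun p => (coeff p.2.1) ∘ₗ ((coeff p.1.1 : B k →ₗ[_] _).restrictScalars k)

theorem Φ_apply (m : ℕ) (f : B k) (p : Fin m × Fin m) :
    Φ m f p = coeff p.2.1 (coeff p.1.1 f) := rfl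

theorem Φ_surj (m : ℕ) : Function.Surjective (Φ (k := k) m) := by
  intro g
  refine ⟨mk fun i => mk fun j => if h : i < m ∧ j < m then g (⟨i, h.1⟩, ⟨j, h.2⟩) else 0, ?_⟩
  ext p
  simp [Φ_apply]

theorem length_sq (m : ℕ) : Module.length k (Fin m × Fin m → k) = (m * m : ℕ) := by
  rw [Module.length_eq_finrank]
  simp

instance : IsLocalHom (algebraMap k (B k)) := inferInstance

theorem length_quot_eq (m : ℕ) : Module.length k (B k ⧸ maximalIdeal (B k) ^ m) =
    Module.length (B k) (B k ⧸ maximalIdeal (B k) ^ m) :=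
  length_eq_of_residue res_B _

theorem length_le (m : ℕ) :
    Module.length (B k) (B k ⧸ maximalIdeal (B k) ^ m) ≤ (m * m : ℕ) := by
  rw [← length_quot_eq, ← length_sq (k := k)]
  have h1 : LinearMap.ker (Φ (k := k) m) ≤
      LinearMap.ker ((maximalIdeal (B k) ^ m).mkQ.restrictScalars k) := by
    intro f hf
    rw [LinearMap.mem_ker] at hf ⊢
    rw [LinearMap.restrictScalars_apply, Submodule.mkQ_apply, Submodule.Quotient.mk_eq_zero,
      mem_pow_iff]
    intro i j hij
    exact congrFun hf (⟨i, by omega⟩, ⟨j, by omega⟩)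
  rw [← ((Φ (k := k) m).quotKerEquivOfSurjective (Φ_surj m)).length_eq]
  refine Module.length_le_of_surjective ((LinearMap.ker (Φ (k := k) m)).liftQ _ h1) ?_
  intro z
  obtain ⟨z, rfl⟩ := Submodule.mkQ_surjective _ z
  exact ⟨Submodule.Quotient.mk z, rfl⟩

theorem le_length (m : ℕ) :
    ((m * m : ℕ) : ℕ∞) ≤ Module.length (B k) (B k ⧸ maximalIdeal (B k) ^ (2 * m)) := by
  rw [← length_quot_eq, ← length_sq (k := k),
    ← (Submodule.Quotient.restrictScalarsEquiv k (maximalIdeal (B k) ^ (2 * m))).length_eq]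
  have h1 : (maximalIdeal (B k) ^ (2 * m)).restrictScalars k ≤ LinearMap.ker (Φ (k := k) m) := by
    intro f hf
    rw [LinearMap.mem_ker]
    ext p
    exact mem_pow_iff.mp hf p.1.1 p.2.1 (by have := p.1.2; have := p.2.2; omega)
  refine Module.length_le_of_surjective (Submodule.liftQ _ _ h1) ?_
  intro z
  obtain ⟨z, rfl⟩ := Φ_surj m z
  exact ⟨Submodule.Quotient.mk z, rfl⟩

end Pool.Agent.H482Z.BCM
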