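import Mathlib

set_option autoImplicit false

/-!
Maximal Cohen-Macaulay modules, Hilbert-Samuel multiplicity and bounded Cohen-Macaulay type.
-/

namespace Pool.Agent.H482Z.BCM

universe u

open IsLocalRing
open scoped ENNReal

variable (R : Type u) [CommRing R] [IsLocalRing R]

/-- `M` is maximal Cohen-Macaulay: it is finitely generated and the maximal ideal contains an
`M`-regular sequence of length `dim R`. -/
def IsMCM (M : Type u) [AddCommGroup M] [Module R M] : Prop :=
  Module.Finite R M ∧ ∃ rs : List R, (∀ r ∈ rs, r ∈ maximalIdeal R) ∧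
    RingTheory.Sequence.IsRegular M rs ∧ (rs.length : WithBot ℕ∞) = ringKrullDim R

omit [IsLocalRing R] in
/-- `M` is nonzero and is not a direct sum of two nonzero submodules. -/
def IsIndec (M : Type u) [AddCommGroup M] [Module R M] : Prop :=
  Nontrivial M ∧ ∀ A B : Submodule R M, IsCompl A B → A = ⊥ ∨ B = ⊥

omit [IsLocalRing R] in
/-- the Krull dimension as a natural number (it is finite for Noetherian local rings) -/
noncomputable def dimNat : ℕ := ((ringKrullDim R).unbotD 0).toNat

/-- The multiplicity `e(M) = lim d! * length (M / m^n M) / n^d`, `d = dim R`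
(written as an upper limit; the limit exists by the Hilbert-Samuel theorem). -/
noncomputable def mult (M : Type u) [AddCommGroup M] [Module R M] : ℝ≥0∞ :=
  Filter.limsup (fun n : ℕ => ((dimNat R).factorial : ℝ≥0∞) *
    (Module.length R (M ⧸ (maximalIdeal R ^ n • (⊤ : Submodule R M))) : ℝ≥0∞) /
      (n : ℝ≥0∞) ^ dimNat R) Filter.atTop

/-- Bounded CM type: the multiplicities of the indecomposable maximal Cohen-Macaulay modules
are bounded. -/
def BoundedCMType : Prop :=
  ∃ C : ℕ, ∀ (M : Type u) [AddCommGroup M] [Module R M], IsMCM R M → IsIndec R M → mult R M ≤ C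

end Pool.Agent.H482Z.BCM
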