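import Mathlib

set_option autoImplicit false

/-!
A saturated relation between two lattices over a discrete valuation ring has a small summand.
-/

namespace Pool.Agent.H482Z.BCM

universe u

variable {O : Type u} [CommRing O] [IsDomain O] [IsDiscreteValuationRing O] {ϖ : O}

theorem exists_coord (hϖ : Irreducible ϖ) {Λ : Type u} [AddCommGroup Λ] [Module O Λ]
    [Module.Finite O Λ] [Module.Free O Λ] {v : Λ} (hv : ∀ v', v ≠ ϖ • v') :
    ∃ l : Λ →ₗ[O] O, l v = 1 := by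
  let b := Module.Free.chooseBasis O Λ
  by_contra hcon
  have h1 : ∀ j, ϖ ∣ b.repr v j := by
    intro j
    by_contra h
    have hu : IsUnit (b.repr v j) := by
      by_contra hu
      apply h
      rw [← Ideal.mem_span_singleton, ← hϖ.maximalIdeal_eq]
      exact hu
    obtain ⟨c, hc⟩ := hu.exists_left_inv
    exact hcon ⟨c • b.coord j, by simpa using hc⟩
  choose c hc using h1
  apply hv (∑ j, c j • b j)
  conv_lhs => rw [← b.sum_repr v]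
  rw [Finset.smul_sum]
  exact Finset.sum_congr rfl fun j _ => by rw [hc, mul_smul]

theorem exists_prim (hϖ : Irreducible ϖ) {Λ : Type u} [AddCommGroup Λ] [Module O Λ]
    [Module.Finite O Λ] {v : Λ} (hv : v ≠ 0) :
    ∃ (j : ℕ) (v' : Λ), v = ϖ ^ j • v' ∧ ∀ v'', v' ≠ ϖ • v'' := by
  by_contra hcon
  push Not at hcon
  have h1 : ∀ j : ℕ, ∃ v', v = ϖ ^ j • v' := by
    intro j
    induction j with
    | zero => exact ⟨v, by simp⟩
    | succ j ih =>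
      obtain ⟨v', h⟩ := ih
      obtain ⟨v'', h'⟩ := hcon j v' h
      exact ⟨v'', by rw [h, h', pow_succ, mul_smul]⟩
  apply hv
  refine IsHausdorff.haus (inferInstance : IsHausdorff (IsLocalRing.maximalIdeal O) Λ) v
    fun j => ?_
  obtain ⟨v', rfl⟩ := h1 j
  rw [SModEq.zero]
  refine Submodule.smul_mem_smul (Ideal.pow_mem_pow ?_ j) trivial
  exact hϖ.not_isUnit

variable (ϖ) in
/-- saturation -/
def sat {Λ : Type u} [AddCommGroup Λ] [Module O Λ] (U : Submodule O Λ) : Submodule O Λ where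
  carrier := {v | ∃ j : ℕ, ϖ ^ j • v ∈ U}
  add_mem' := by
    rintro a b ⟨i, hi⟩ ⟨j, hj⟩
    refine ⟨i + j, ?_⟩
    rw [smul_add]
    refine add_mem ?_ ?_
    · rw [pow_add, mul_comm, mul_smul]; exact U.smul_mem _ hi
    · rw [pow_add, mul_smul]; exact U.smul_mem _ hj
  zero_mem' := ⟨0, by simp⟩
  smul_mem' := by
    rintro c a ⟨i, hi⟩
    exact ⟨i, by rw [smul_comm]; exact U.smul_mem _ hi⟩

theorem sat_bound {Λ : Type u} [AddCommGroup Λ] [Module O Λ] [Module.Finite O Λ]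
    (U : Submodule O Λ) : ∃ a : ℕ, ∀ v ∈ sat ϖ U, ϖ ^ a • v ∈ U := by
  obtain ⟨s, hs⟩ := IsNoetherian.noetherian (sat ϖ U)
  have h1 : ∀ v : s, ∃ j : ℕ, ϖ ^ j • (v : Λ) ∈ U := fun v =>
    (hs ▸ Submodule.subset_span v.2 : (v : Λ) ∈ sat ϖ U)
  choose f hf using h1
  refine ⟨Finset.univ.sup f, fun v hv => ?_⟩
  rw [← hs] at hv
  induction hv using Submodule.span_induction with
  | mem x hx =>
    obtain ⟨c, hc⟩ := Nat.exists_eq_add_of_le (Finset.le_sup (f := f) (Finset.mem_univ ⟨x, hx⟩))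
    rw [hc, pow_add, mul_comm, mul_smul]
    exact U.smul_mem _ (hf ⟨x, hx⟩)
  | zero => simp
  | add x y _ _ hx hy => rw [smul_add]; exact add_mem hx hy
  | smul c x _ hx => rw [smul_comm]; exact U.smul_mem _ hx

theorem sat_retract (hϖ : Irreducible ϖ) {Λ : Type u} [AddCommGroup Λ] [Module O Λ]
    [Module.Finite O Λ] (U : Submodule O Λ) :
    ∃ ρ : Λ →ₗ[O] sat ϖ U, ∀ v : sat ϖ U, ρ v = v := by
  have : Module.IsTorsionFree O (Λ ⧸ sat ϖ U) := by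
    refine Module.IsTorsionFree.of_smul_eq_zero fun r m hrm => ?_
    obtain ⟨m, rfl⟩ := Submodule.mkQ_surjective _ m
    by_cases hr : r = 0
    · exact Or.inl hr
    right
    obtain ⟨j, v, rfl⟩ := IsDiscreteValuationRing.eq_unit_mul_pow_irreducible hr hϖ
    rw [← map_smul, Submodule.mkQ_apply, Submodule.Quotient.mk_eq_zero] at hrm
    obtain ⟨i, hi⟩ := hrm
    rw [Submodule.mkQ_apply, Submodule.Quotient.mk_eq_zero]
    refine ⟨i + j, ?_⟩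
    have := U.smul_mem (v⁻¹ : Oˣ) hi
    rw [smul_smul, smul_smul] at this
    convert this using 2
    rw [pow_add, mul_comm (v⁻¹ : Oˣ).1, mul_assoc, Units.inv_mul_cancel_left]
  obtain ⟨s, hs⟩ := Module.projective_lifting_property (sat ϖ U).mkQ LinearMap.id
    (Submodule.mkQ_surjective _)
  have h1 : ∀ v, (LinearMap.id - s ∘ₗ (sat ϖ U).mkQ : Λ →ₗ[O] Λ) v ∈ sat ϖ U := by
    intro v
    rw [← Submodule.Quotient.mk_eq_zero, ← Submodule.mkQ_apply]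
    have := LinearMap.congr_fun hs ((sat ϖ U).mkQ v)
    simp only [LinearMap.comp_apply, LinearMap.id_apply] at this
    simp only [LinearMap.sub_apply, LinearMap.id_apply, LinearMap.comp_apply, map_sub, this,
      sub_self]
  refine ⟨LinearMap.codRestrict _ _ h1, fun v => Subtype.ext ?_⟩
  have h2 : (sat ϖ U).mkQ v = 0 := (Submodule.Quotient.mk_eq_zero _).mpr v.2
  simp [h2]

variable {Λ₁ Λ₂ : Type u} [AddCommGroup Λ₁] [Module O Λ₁] [AddCommGroup Λ₂] [Module O Λ₂]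

/-- the conclusion -/
def Small (Γ : Submodule O (Λ₁ × Λ₂)) : Prop :=
  ∃ (l₁ : Λ₁ →ₗ[O] O) (e₁ : Λ₁) (l₂ : Λ₂ →ₗ[O] O) (e₂ : Λ₂),
    (l₁ e₁ = 1 ∨ e₁ = 0) ∧ (l₂ e₂ = 1 ∨ e₂ = 0) ∧ (l₁ e₁ = 1 ∨ l₂ e₂ = 1) ∧
    ∀ p ∈ Γ, (l₁ p.1 • e₁, l₂ p.2 • e₂) ∈ Γ

omit [IsDomain O] [IsDiscreteValuationRing O] in
theorem Small.of_swap {Γ : Submodule O (Λ₁ × Λ₂)}
    (h : Small (Γ.comap (LinearEquiv.prodComm O Λ₂ Λ₁).toLinearMap)) : Small Γ := by
  obtain ⟨l₂, e₂, l₁, e₁, h2, h1, h3, h4⟩ := h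
  exact ⟨l₁, e₁, l₂, e₂, h1, h2, h3.symm, fun p hp => h4 (p.2, p.1) hp⟩

variable [Module.Finite O Λ₁] [Module.Finite O Λ₂] [Module.Free O Λ₁] [Module.Free O Λ₂]

omit [Module.Free O Λ₁] in
theorem small_of_prim (hϖ : Irreducible ϖ) (Γ : Submodule O (Λ₁ × Λ₂))
    (h2 : ∀ v, (0, v) ∈ Γ → v = 0) (a : ℕ)
    (ha : ∀ v ∈ sat ϖ (Γ.map (LinearMap.fst O Λ₁ Λ₂)),
      ϖ ^ a • v ∈ Γ.map (LinearMap.fst O Λ₁ Λ₂))
    (e₁ : Λ₁) (v₀ : Λ₂) (he : (ϖ ^ a • e₁, v₀) ∈ Γ) (hv : ∀ v', v₀ ≠ ϖ • v') : Small Γ := by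
  obtain ⟨l₂, hl₂⟩ := exists_coord hϖ hv
  obtain ⟨ρ, hρ⟩ := sat_retract hϖ (Γ.map (LinearMap.fst O Λ₁ Λ₂))
  have h1 : ∀ u : sat ϖ (Γ.map (LinearMap.fst O Λ₁ Λ₂)), ∃ v, (ϖ ^ a • (u : Λ₁), v) ∈ Γ := by
    intro u
    obtain ⟨p, hp, h⟩ := ha u u.2
    exact ⟨p.2, by rw [← h]; exact hp⟩
  choose g hg using h1
  have uniq : ∀ u v v', (u, v) ∈ Γ → (u, v') ∈ Γ → v = v' := by
    intro u v v' h h'
    exact sub_eq_zero.mp (h2 _ (by simpa using Γ.sub_mem h h'))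
  let g' : sat ϖ (Γ.map (LinearMap.fst O Λ₁ Λ₂)) →ₗ[O] Λ₂ :=
    { toFun := g
      map_add' := fun u u' => uniq _ _ _ (hg (u + u')) (by
        simpa [smul_add] using Γ.add_mem (hg u) (hg u'))
      map_smul' := fun c u => uniq _ _ _ (hg (c • u)) (by
        have := Γ.smul_mem c (hg u)
        rw [Prod.smul_mk, smul_comm] at this
        exact this) }
  have he₁ : e₁ ∈ sat ϖ (Γ.map (LinearMap.fst O Λ₁ Λ₂)) := ⟨a, _, he, rfl⟩
  refine ⟨l₂ ∘ₗ g' ∘ₗ ρ, e₁, l₂, v₀, Or.inl ?_, Or.inl hl₂, Or.inr hl₂, fun p hp => ?_⟩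
  · have := hρ ⟨e₁, he₁⟩
    simp only at this
    rw [LinearMap.comp_apply, LinearMap.comp_apply, this, ← hl₂]
    congr 1
    exact uniq _ _ _ (hg ⟨e₁, he₁⟩) he
  · have hp1 : p.1 ∈ sat ϖ (Γ.map (LinearMap.fst O Λ₁ Λ₂)) := ⟨0, p, hp, by simp⟩
    have h3 := hρ ⟨p.1, hp1⟩
    simp only at h3
    have h4 : g' ⟨p.1, hp1⟩ = ϖ ^ a • p.2 :=
      uniq _ _ _ (hg ⟨p.1, hp1⟩) (Γ.smul_mem (ϖ ^ a) hp)
    rw [LinearMap.comp_apply, LinearMap.comp_apply, h3, h4, map_smul, smul_eq_mul, mul_comm,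
      mul_smul]
    exact Γ.smul_mem (l₂ p.2) he

omit [Module.Free O Λ₁] in
theorem small_or (hϖ : Irreducible ϖ) (Γ : Submodule O (Λ₁ × Λ₂))
    (hs : ∀ p, ϖ • p ∈ Γ → p ∈ Γ) (h2 : ∀ v, (0, v) ∈ Γ → v = 0) :
    Small Γ ∨ ∀ v ∈ sat ϖ (Γ.map (LinearMap.fst O Λ₁ Λ₂)), v ∈ Γ.map (LinearMap.fst O Λ₁ Λ₂) := by
  classical
  have hex := sat_bound (ϖ := ϖ) (Γ.map (LinearMap.fst O Λ₁ Λ₂))
  rcases h : Nat.find hex with _ | a
  · right
    have := Nat.find_spec hex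
    rw [h] at this
    simpa using this
  · left
    have h1 := Nat.find_spec hex
    rw [h] at h1
    have h3 := Nat.find_min hex (m := a) (by omega)
    push Not at h3
    obtain ⟨e₁, he₁, hne⟩ := h3
    obtain ⟨p, hp, hp'⟩ := h1 e₁ he₁
    refine small_of_prim hϖ Γ h2 (a + 1) h1 e₁ p.2 (by rw [← hp']; exact hp) fun v' hv' => hne ?_
    refine ⟨(ϖ ^ a • e₁, v'), hs _ ?_, rfl⟩
    rw [Prod.smul_mk, ← hv', smul_smul, ← pow_succ', ← hp']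
    exact hp

theorem small (hϖ : Irreducible ϖ) (Γ : Submodule O (Λ₁ × Λ₂))
    (hs : ∀ p, ϖ • p ∈ Γ → p ∈ Γ) (h1 : ∀ v, (v, 0) ∈ Γ → v = 0) (h2 : ∀ v, (0, v) ∈ Γ → v = 0)
    (hn : Nontrivial Λ₁ ∨ Nontrivial Λ₂) : Small Γ := by
  rcases small_or hϖ Γ hs h2 with h | ha
  · exact h
  rcases small_or hϖ (Γ.comap (LinearEquiv.prodComm O Λ₂ Λ₁).toLinearMap)
    (fun p hp => hs (p.2, p.1) hp) h1 with h | hb
  · exact h.of_swap
  by_cases h0 : ∀ p ∈ Γ, p.2 = 0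
  · have h3 : ∀ p ∈ Γ, p = 0 := fun p hp =>
      Prod.ext (h1 p.1 (by rw [← h0 p hp]; exact hp)) (h0 p hp)
    rcases hn with hn | hn
    · obtain ⟨v, hv⟩ := exists_ne (0 : Λ₁)
      obtain ⟨j, v', -, hv'⟩ := exists_prim hϖ hv
      obtain ⟨l, hl⟩ := exists_coord hϖ hv'
      refine ⟨l, v', 0, 0, Or.inl hl, Or.inr rfl, Or.inl hl, fun p hp => ?_⟩
      rw [h3 p hp]
      simp only [Prod.fst_zero, Prod.snd_zero, map_zero, zero_smul]
      exact Γ.zero_mem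
    · obtain ⟨v, hv⟩ := exists_ne (0 : Λ₂)
      obtain ⟨j, v', -, hv'⟩ := exists_prim hϖ hv
      obtain ⟨l, hl⟩ := exists_coord hϖ hv'
      refine ⟨0, 0, l, v', Or.inr rfl, Or.inl hl, Or.inr hl, fun p hp => ?_⟩
      rw [h3 p hp]
      simp only [Prod.fst_zero, Prod.snd_zero, map_zero, zero_smul]
      exact Γ.zero_mem
  · push Not at h0
    obtain ⟨p, hp, hp0⟩ := h0
    obtain ⟨j, v', hj, hv'⟩ := exists_prim hϖ hp0
    obtain ⟨q, hq, hq'⟩ := hb v' ⟨j, (p.2, p.1), hp, hj⟩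
    refine small_of_prim hϖ Γ h2 0 (by simpa using ha) q.2 v' ?_ hv'
    rw [pow_zero, one_smul, ← hq']
    exact hq

end Pool.Agent.H482Z.BCM
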