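import Pool.Agent.H482Z.BCM.Free
import Pool.Agent.H482Z.BCM.Graph
import Pool.Agent.H482Z.BCM.Defs

set_option autoImplicit false

/-!
`T = k[[t,x,y]]/(xy)` has bounded Cohen-Macaulay type.
-/

namespace Pool.Agent.H482Z.BCM

universe u

open IsLocalRing PowerSeries
open scoped ENNReal

variable {k : Type u} [Field k]

theorem exists_red (P : Type u) [AddCommGroup P] [Module (B k) P] [Module.Finite (B k) P]
    [Module.Free (B k) P] :
    ∃ (ι : Type u) (_ : Fintype ι) (red : P →+ (ι → PowerSeries k)),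
      (∀ (β : B k) (n : P), red (β • n) = constantCoeff β • red n) ∧
      (∀ n, red n = 0 → ∃ n', n = w k • n') ∧
      (∀ (l : (ι → PowerSeries k) →ₗ[PowerSeries k] PowerSeries k) (e : ι → PowerSeries k),
        ∃ (l' : P →ₗ[B k] B k) (e' : P), red e' = e ∧ (e = 0 → e' = 0) ∧
          (∀ n, constantCoeff (l' n) = l (red n)) ∧ l' e' = C (l e)) ∧
      (Nontrivial P → Nontrivial (ι → PowerSeries k)) := by
  classical
  let b := Module.Free.chooseBasis (B k) P
  refine ⟨_, inferInstance,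
    { toFun := fun n i => constantCoeff (b.repr n i)
      map_zero' := by ext i; simp
      map_add' := fun n n' => by ext i; simp }, fun β n => by ext i; simp, fun n hn => ?_,
    fun l e => ?_, fun hP => ?_⟩
  · have h1 : ∀ i, w k ∣ b.repr n i := fun i => X_dvd_iff.mpr (congrFun hn i)
    choose c hc using h1
    refine ⟨∑ i, c i • b i, ?_⟩
    conv_lhs => rw [← b.sum_repr n]
    rw [Finset.smul_sum]
    exact Finset.sum_congr rfl fun j _ => by rw [hc, mul_smul]
  · have hl : ∀ v : Module.Free.ChooseBasisIndex (B k) P → PowerSeries k,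
        l v = ∑ i, l (Pi.single i 1) * v i := by
      intro v
      conv_lhs => rw [← Finset.univ_sum_single v, map_sum]
      refine Finset.sum_congr rfl fun i _ => ?_
      rw [mul_comm, ← smul_eq_mul, ← map_smul, ← Pi.single_smul, smul_eq_mul, mul_one]
    refine ⟨∑ i, (C (l (Pi.single i 1)) : B k) • b.coord i, b.equivFun.symm fun i => C (e i),
      ?_, ?_, fun n => ?_, ?_⟩
    · ext1 i
      simp only [AddMonoidHom.coe_mk, ZeroHom.coe_mk]
      rw [← b.equivFun_apply, LinearEquiv.apply_symm_apply, constantCoeff_C]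
    · rintro rfl
      simp
    · rw [hl]
      simp
    · rw [hl e, map_sum, LinearMap.sum_apply]
      refine Finset.sum_congr rfl fun i _ => ?_
      rw [LinearMap.smul_apply, b.coord_apply, ← b.equivFun_apply, LinearEquiv.apply_symm_apply,
        smul_eq_mul, map_mul]
  · have : Nonempty (Module.Free.ChooseBasisIndex (B k) P) := b.index_nonempty
    infer_instance

namespace Nodal

variable {T : Type u} [CommRing T] [Algebra (B k) T] (h : Nodal k T)
variable (N : Type u) [AddCommGroup N] [Module T N] [Module (B k) N] [IsScalarTower (B k) T N]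

/-- the kernel of `x` -/
noncomputable def K : Submodule (B k) N :=
  (LinearMap.ker (LinearMap.lsmul T N h.x)).restrictScalars (B k)

variable {N}

theorem mem_K {n : N} : n ∈ h.K N ↔ h.x • n = 0 := Iff.rfl

theorem K_reg2 (hN : Reg2 N (w k) (t k)) : Reg2 (h.K N) (w k) (t k) := by
  refine ⟨fun m hm => Subtype.ext (hN.1 _ (congrArg Subtype.val hm)), fun m m' hm => ?_⟩
  obtain ⟨n, hn⟩ := hN.2 (m : N) m' (congrArg Subtype.val hm)
  refine ⟨⟨n, hN.1 _ ?_⟩, Subtype.ext hn⟩
  rw [LinearMap.lsmul_apply, smul_comm, ← hn]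
  exact m.2

theorem w_smul (n : N) : w k • n = h.x • n + h.y • n := by
  rw [← add_smul, h.add, algebraMap_smul]

omit [Module (B k) N] [IsScalarTower (B k) T N] in
theorem x_y (n : N) : h.x • h.y • n = 0 := by rw [smul_smul, h.mul, zero_smul]

variable (N) in
/-- multiplication by `y` -/
noncomputable def Y : N →ₗ[B k] h.K N where
  toFun n := ⟨h.y • n, h.x_y n⟩
  map_add' _ _ := Subtype.ext (smul_add _ _ _)
  map_smul' _ _ := Subtype.ext (smul_comm _ _ _)

theorem Y_K (p : h.K N) : h.Y N p = w k • p := by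
  apply Subtype.ext
  change h.y • (p : N) = w k • (p : N)
  rw [h.w_smul, h.mem_K.mp p.2, zero_add]

theorem Y_K' (p : h.swap.K N) : h.Y N p = 0 := Subtype.ext p.2

include h in
theorem rank_le [Module.Finite (B k) N] (hN : Reg2 N (w k) (t k)) (hI : IsIndec T N) :
    ∃ f : N →ₗ[B k] B k × B k, Function.Injective f := by
  have := free_of_reg2 _ (h.K_reg2 hN)
  have := free_of_reg2 _ (h.swap.K_reg2 hN)
  obtain ⟨ι₁, _, r₁, hr₁, hk₁, hl₁, hn₁⟩ := exists_red (k := k) (h.K N)
  obtain ⟨ι₂, _, r₂, hr₂, hk₂, hl₂, hn₂⟩ := exists_red (k := k) (h.swap.K N)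
  have ext : ∀ z : N, h.Y N z = 0 → h.swap.Y N z = 0 → z = 0 := by
    intro z h1 h2
    refine hN.1 z ?_
    have h3 : h.y • z = 0 := congrArg Subtype.val h1
    have h4 : h.x • z = 0 := congrArg Subtype.val h2
    rw [h.w_smul, h3, h4, add_zero]
  have glue : ∀ (a : h.K N) (b : h.swap.K N) (n : N), r₁ a = r₁ (h.Y N n) →
      r₂ b = r₂ (h.swap.Y N n) → ∃ z : N, h.Y N z = a ∧ h.swap.Y N z = b := by
    intro a b n ha hb
    obtain ⟨p₁, hp₁⟩ := hk₁ (a - h.Y N n) (by rw [map_sub, ha, sub_self])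
    obtain ⟨p₂, hp₂⟩ := hk₂ (b - h.swap.Y N n) (by rw [map_sub, hb, sub_self])
    refine ⟨n + p₁ + p₂, ?_, ?_⟩
    · rw [map_add, map_add, h.Y_K, h.Y_K', ← hp₁]; abel
    · rw [map_add, map_add, h.swap.Y_K, h.swap.Y_K' (N := N) p₁, ← hp₂]; abel
  let Γ : Submodule (PowerSeries k) ((ι₁ → PowerSeries k) × (ι₂ → PowerSeries k)) :=
    { carrier := {p | ∃ n : N, p = (r₁ (h.Y N n), r₂ (h.swap.Y N n))}
      add_mem' := by
        rintro _ _ ⟨n, rfl⟩ ⟨n', rfl⟩
        exact ⟨n + n', by simp⟩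
      zero_mem' := ⟨0, by simp; rfl⟩
      smul_mem' := by
        rintro α _ ⟨n, rfl⟩
        exact ⟨(C α : B k) • n, by simp [hr₁, hr₂]⟩ }
  have hcw : constantCoeff (w k) = 0 := constantCoeff_X
  have hs : ∀ p, (X : PowerSeries k) • p ∈ Γ → p ∈ Γ := by
    rintro ⟨u, v⟩ ⟨n, hn⟩
    obtain ⟨-, a, ha, -⟩ := hl₁ 0 u
    obtain ⟨-, b, hb, -⟩ := hl₂ 0 v
    obtain ⟨z, hz₁, hz₂⟩ := glue (t k • a) (t k • b) n
      (by rw [hr₁, ha, t, constantCoeff_C]; exact congrArg Prod.fst hn)
      (by rw [hr₂, hb, t, constantCoeff_C]; exact congrArg Prod.snd hn)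
    have h1 : h.y • z = t k • (a : N) := congrArg Subtype.val hz₁
    have h2 : h.x • z = t k • (b : N) := congrArg Subtype.val hz₂
    obtain ⟨m, hm⟩ := hN.2 ((a : N) + b) z (by rw [h.w_smul, h1, h2, smul_add, add_comm])
    have h3 : h.Y N m = a := by
      refine sub_eq_zero.mp ((h.K_reg2 hN).1 _ ?_)
      rw [smul_sub, ← map_smul, ← hm, map_add, h.Y_K, h.Y_K', add_zero, sub_self]
    have h4 : h.swap.Y N m = b := by
      refine sub_eq_zero.mp ((h.swap.K_reg2 hN).1 _ ?_)
      rw [smul_sub, ← map_smul, ← hm, map_add, h.swap.Y_K, h.swap.Y_K' (N := N) a, zero_add,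
        sub_self]
    exact ⟨m, by rw [h3, h4, ha, hb]⟩
  have h1 : ∀ v, (v, 0) ∈ Γ → v = 0 := by
    rintro v ⟨n, hn⟩
    obtain ⟨z, hz₁, hz₂⟩ := glue (h.Y N n) 0 n rfl (by rw [map_zero]; exact congrArg Prod.snd hn)
    have hz : z ∈ h.K N := congrArg Subtype.val hz₂
    have h3 := h.Y_K ⟨z, hz⟩
    simp only at h3
    have h4 : v = r₁ (h.Y N n) := congrArg Prod.fst hn
    rw [h4, ← hz₁, h3, hr₁, hcw, zero_smul]
  have h2 : ∀ v, (0, v) ∈ Γ → v = 0 := by
    rintro v ⟨n, hn⟩
    obtain ⟨z, hz₁, hz₂⟩ := glue 0 (h.swap.Y N n) n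
      (by rw [map_zero]; exact congrArg Prod.fst hn) rfl
    have hz : z ∈ h.swap.K N := congrArg Subtype.val hz₁
    have h3 := h.swap.Y_K ⟨z, hz⟩
    simp only at h3
    have h4 : v = r₂ (h.swap.Y N n) := congrArg Prod.snd hn
    rw [h4, ← hz₂, h3, hr₂, hcw, zero_smul]
  have hnt : Nontrivial (ι₁ → PowerSeries k) ∨ Nontrivial (ι₂ → PowerSeries k) := by
    have := hI.1
    obtain ⟨z, hz⟩ := exists_ne (0 : N)
    by_cases h3 : h.Y N z = 0
    · exact Or.inr (hn₂ ⟨_, _, fun h4 => hz (ext z h3 h4)⟩)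
    · exact Or.inl (hn₁ ⟨_, _, h3⟩)
  obtain ⟨l₁, e₁, l₂, e₂, he₁, he₂, he, hΓ⟩ := small X_irreducible Γ hs h1 h2 hnt
  obtain ⟨l₁', e₁', hre₁, hz₁, hc₁, hle₁⟩ := hl₁ l₁ e₁
  obtain ⟨l₂', e₂', hre₂, hz₂, hc₂, hle₂⟩ := hl₂ l₂ e₂
  have hE : ∀ n : N, ∃ z : N, h.Y N z = l₁' (h.Y N n) • e₁' ∧
      h.swap.Y N z = l₂' (h.swap.Y N n) • e₂' := by
    intro n
    obtain ⟨n', hn'⟩ := hΓ _ ⟨n, rfl⟩
    exact glue _ _ n' (by rw [hr₁, hc₁, hre₁]; exact congrArg Prod.fst hn')
      (by rw [hr₂, hc₂, hre₂]; exact congrArg Prod.snd hn')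
  choose E hE₁ hE₂ using hE
  have ext' : ∀ z z' : N, h.Y N z = h.Y N z' → h.swap.Y N z = h.swap.Y N z' → z = z' :=
    fun z z' h1 h2 => sub_eq_zero.mp (ext _ (by rw [map_sub, h1, sub_self])
      (by rw [map_sub, h2, sub_self]))
  have hEadd : ∀ a b, E (a + b) = E a + E b := fun a b =>
    ext' _ _ (by simp [hE₁, add_smul]) (by simp [hE₂, add_smul])
  have hEsm : ∀ (β : B k) (a : N), E (β • a) = β • E a := fun β a =>
    ext' _ _ (by simp [hE₁, mul_smul]) (by simp [hE₂, mul_smul])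
  have hYx : ∀ a : N, h.Y N (h.x • a) = 0 := fun a => h.Y_K' (h.swap.Y N a)
  have hXx : ∀ a : N, h.swap.Y N (h.x • a) = w k • h.swap.Y N a :=
    fun a => h.swap.Y_K (h.swap.Y N a)
  have hEx : ∀ a : N, E (h.x • a) = h.x • E a := fun a =>
    ext' _ _ (by simp [hE₁, hYx]) (by simp [hE₂, hXx, mul_smul])
  let E' : N →ₗ[T] N :=
    { toFun := E
      map_add' := hEadd
      map_smul' := fun z a => by
        obtain ⟨α, β, rfl⟩ := h.span z
        simp only [add_smul, mul_smul, algebraMap_smul, hEadd, hEsm, hEx, RingHom.id_apply] }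
  have hEE : ∀ a, E (E a) = E a := by
    intro a
    refine ext' _ _ ?_ ?_
    · rcases he₁ with h3 | h3
      · rw [hE₁ (E a), hE₁ a, map_smul, hle₁, h3]; simp
      · rw [hE₁ (E a), hE₁ a, hz₁ h3]; simp
    · rcases he₂ with h3 | h3
      · rw [hE₂ (E a), hE₂ a, map_smul, hle₂, h3]; simp
      · rw [hE₂ (E a), hE₂ a, hz₂ h3]; simp
  have hc : IsCompl (LinearMap.range E') (LinearMap.ker E') :=
    LinearMap.IsIdempotentElem.isCompl (LinearMap.ext hEE)
  rcases hI.2 _ _ hc with h3 | h3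
  · exfalso
    have h4 : ∀ a, E a = 0 := fun a => by
      have : E' a ∈ LinearMap.range E' := ⟨a, rfl⟩
      rwa [h3] at this
    rcases he with h5 | h5
    · have h6 := congrArg l₁' (hE₁ e₁')
      rw [h4, h.Y_K] at h6
      simp [hle₁, h5, w_ne.symm] at h6
    · have h6 := congrArg l₂' (hE₂ e₂')
      rw [h4, h.swap.Y_K] at h6
      simp [hle₂, h5, w_ne.symm] at h6
  · have h4 : ∀ a, E a = a := fun a => by
      have : E' a - a ∈ LinearMap.ker E' := by
        rw [LinearMap.mem_ker, map_sub]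
        exact sub_eq_zero.mpr (hEE a)
      rw [h3] at this
      exact sub_eq_zero.mp this
    refine ⟨(l₁' ∘ₗ h.Y N).prod (l₂' ∘ₗ h.swap.Y N), ?_⟩
    rw [injective_iff_map_eq_zero]
    intro a ha
    have h5 : l₁' (h.Y N a) = 0 := congrArg Prod.fst ha
    have h6 : l₂' (h.swap.Y N a) = 0 := congrArg Prod.snd ha
    rw [← h4 a]
    exact ext _ (by rw [hE₁, h5, zero_smul]) (by rw [hE₂, h6, zero_smul])

variable [IsLocalRing T]

include h in
theorem length_eq (M : Type u) [AddCommGroup M] [Module T M] [Module (B k) M]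
    [IsScalarTower (B k) T M] : Module.length (B k) M = Module.length T M :=
  have := h.isLocalHom
  length_eq_of_residue h.res_T M

include h in
theorem length_mono (I : Ideal (B k)) (J : Ideal T) (hIJ : I.map (algebraMap (B k) T) ≤ J) :
    Module.length T (N ⧸ (J • ⊤ : Submodule T N)) ≤
      Module.length (B k) (N ⧸ (I • ⊤ : Submodule (B k) N)) := by
  rw [← h.length_eq]
  have h1 : (I • ⊤ : Submodule (B k) N) ≤
      LinearMap.ker ((J • ⊤ : Submodule T N).mkQ.restrictScalars (B k)) := by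
    refine Submodule.smul_le.mpr fun r hr n _ => ?_
    rw [LinearMap.mem_ker, LinearMap.restrictScalars_apply, Submodule.mkQ_apply,
      Submodule.Quotient.mk_eq_zero, ← algebraMap_smul T r n]
    exact Submodule.smul_mem_smul (hIJ (Ideal.mem_map_of_mem _ hr)) trivial
  refine Module.length_le_of_surjective (Submodule.liftQ _ _ h1) fun z => ?_
  obtain ⟨z, rfl⟩ := Submodule.mkQ_surjective _ z
  exact ⟨Submodule.Quotient.mk z, rfl⟩

include h in
theorem length_mono' (I : Ideal (B k)) (J : Ideal T) (hIJ : J ≤ I.map (algebraMap (B k) T)) :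
    Module.length (B k) (N ⧸ (I • ⊤ : Submodule (B k) N)) ≤
      Module.length T (N ⧸ (J • ⊤ : Submodule T N)) := by
  rw [← h.length_eq,
    ← (Submodule.Quotient.restrictScalarsEquiv (B k) (J • ⊤ : Submodule T N)).length_eq]
  have h1 : (J • ⊤ : Submodule T N).restrictScalars (B k) ≤
      LinearMap.ker (I • ⊤ : Submodule (B k) N).mkQ := by
    rw [Submodule.ker_mkQ, ← Submodule.restrictScalars_top (B k) T N,
      ← Ideal.smul_restrictScalars]
    exact fun n hn => Submodule.smul_mono_left hIJ hn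
  refine Module.length_le_of_surjective (Submodule.liftQ _ _ h1) fun z => ?_
  obtain ⟨z, rfl⟩ := Submodule.mkQ_surjective _ z
  exact ⟨Submodule.Quotient.mk z, rfl⟩

include h in
theorem reg2_B_of {a b : T} [Module.Finite T N] (ha : a ∈ maximalIdeal T)
    (hb : b ∈ maximalIdeal T) (hN : Reg2 N a b) : Reg2 N (w k) (t k) := by
  have := h.reg2_wt ha hb hN
  unfold Reg2 at this ⊢
  simpa only [algebraMap_smul] using this

include h in
theorem bounded : BoundedCMType T := by
  refine ⟨4, fun N _ _ ⟨hfin, rs, hrs, hreg, hlen⟩ hI => ?_⟩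
  let : Module (B k) N := Module.compHom N (algebraMap (B k) T)
  have : IsScalarTower (B k) T N := IsScalarTower.of_algebraMap_smul fun _ _ => rfl
  have := h.finite
  have : Module.Finite (B k) N := Module.Finite.trans T N
  rw [h.dim] at hlen
  obtain ⟨a, b, rfl⟩ := List.length_eq_two.mp (by exact_mod_cast hlen : rs.length = 2)
  have hN := h.reg2_B_of (hrs a (by simp)) (hrs b (by simp)) (reg2_iff.mp hreg.1)
  have := free_of_reg2 N hN
  obtain ⟨f, hf⟩ := h.rank_le hN hI
  have hr : Module.finrank (B k) N ≤ 2 := by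
    simpa using LinearMap.finrank_le_finrank_of_injective hf
  have hd : dimNat T = 2 := dimNat_aux h.dim
  unfold mult
  rw [hd]
  refine Filter.limsup_le_of_le (h := Filter.Eventually.of_forall fun j => ?_)
  have h1 : Module.length T (N ⧸ (maximalIdeal T ^ j • ⊤ : Submodule T N)) ≤
      ((2 * (j * j) : ℕ) : ℕ∞) := by
    refine (h.length_mono _ _ (h.map_pow_le j)).trans ?_
    rw [length_quot_free, Nat.cast_mul]
    exact mul_le_mul' (by exact_mod_cast hr) (length_le j)
  refine ENNReal.div_le_of_le_mul ?_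
  have h2 := ENat.toENNReal_le.mpr h1
  refine (mul_le_mul_right h2 _).trans (le_of_eq ?_)
  simp only [Nat.factorial_two, ENat.toENNReal_coe]
  push_cast
  ring

end Nodal

end Pool.Agent.H482Z.BCM
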