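import Pool.Agent.H482Z.BCM.Primes
import Pool.Agent.H482Z.BCM.Bounded

set_option autoImplicit false

/-!
Existence of `T`, transport to the completion, and the counterexample.
-/

namespace Pool.Agent.H482Z.BCM

universe u

open IsLocalRing

variable {k : Type u} [Field k]

/-- transport along an isomorphism -/
noncomputable def Nodal.transfer {T T' : Type u} [CommRing T] [CommRing T'] [Algebra (B k) T]
    [Algebra (B k) T'] (h : Nodal k T) (e : T ≃ₐ[B k] T') : Nodal k T' where
  x := e h.x
  y := e h.y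
  add := by rw [← map_add, h.add, AlgEquiv.commutes]
  mul := by rw [← map_mul, h.mul, map_zero]
  span := fun z => by
    obtain ⟨a, b, hz⟩ := h.span (e.symm z)
    exact ⟨a, b, by simpa using congrArg e hz⟩
  φ₁ := h.φ₁.comp e.symm
  φ₂ := h.φ₂.comp e.symm
  φ₁x := by simp [h.φ₁x]
  φ₂y := by simp [h.φ₂y]
  inj := fun z h1 h2 => by simpa using h.inj (e.symm z) h1 h2

variable (k) in
/-- the model `B[x]/(x^2 - w x)` -/
noncomputable def model : Nodal k (QuadraticAlgebra (B k) 0 (w k)) where
  x := QuadraticAlgebra.omega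
  y := algebraMap (B k) _ (w k) - QuadraticAlgebra.omega
  add := by ring
  mul := by ext <;> simp
  span := fun z => ⟨z.re, z.im, by ext <;> simp⟩
  φ₁ := QuadraticAlgebra.lift ⟨0, by simp⟩
  φ₂ := QuadraticAlgebra.lift ⟨w k, by simp⟩
  φ₁x := by simp
  φ₂y := by simp
  inj := fun z h1 h2 => by
    have h3 : z.re = 0 := by simpa using h1
    have h4 : z.im = 0 := by simpa [h3, w_ne] using h2
    exact QuadraticAlgebra.ext h3 h4

theorem main (k : Type u) [Field k] : ∃ (R : Type u) (_ : CommRing R) (_ : IsDomain R) (_ : IsNoetherianRing R)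
    (_ : IsLocalRing R), ringKrullDim R = 2 ∧ IsMCM R R ∧
      IsNoetherianRing (AdicCompletion (maximalIdeal R) R) ∧
      BoundedCMType (AdicCompletion (maximalIdeal R) R) ∧ ¬ BoundedCMType R := by
  obtain ⟨τ, hτ, htr⟩ := Liouville.exists_transc k
  let h := model k
  have := h.isLocalRing
  have := h.isDomain hτ
  have := h.noethR hτ htr
  obtain ⟨e⟩ := h.iso hτ
  let : Algebra (B k) (AdicCompletion (maximalIdeal (h.R τ)) (h.R τ)) :=
    (e.toRingHom.comp (algebraMap (B k) _)).toAlgebra
  let h' := h.transfer (AlgEquiv.ofRingEquiv (f := e) fun _ => rfl)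
  have hd := dim_eq_two h.tR_mem (h.yR_mem hτ) (h.reg2_R hτ) fun p hp => h.prime_t hτ hp
  refine ⟨h.R τ, inferInstance, inferInstance, inferInstance, inferInstance, hd.2,
    ⟨inferInstance, [h.tR τ, h.yR τ], by simpa using ⟨h.tR_mem, h.yR_mem hτ⟩, hd.1,
      by rw [hd.2]; rfl⟩, h'.noeth, h'.bounded,
    h'.unbounded AdicCompletion.maximalIdeal_eq_map.symm (fun s => ?_) (h.primes hτ htr)
      h.tR_mem (h.yR_mem hτ) (h.reg2_R hτ) hd.2⟩
  obtain ⟨r, hr⟩ := (AdicCompletion.residueField_map_bijective (h.R τ)).2 (residue _ s)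
  obtain ⟨r, rfl⟩ := residue_surjective r
  rw [ResidueField.map_residue] at hr
  exact ⟨r, Ideal.Quotient.eq.mp hr.symm⟩

end Pool.Agent.H482Z.BCM
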