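import Pool.Agent.H482Z.BCM.Nodal

set_option autoImplicit false

/-!
Maximal Cohen-Macaulay modules over `T` are free over `B`.
-/

namespace Pool.Agent.H482Z.BCM

universe u

open IsLocalRing TensorProduct

variable {k : Type u} [Field k]

theorem O_decomp {α : PowerSeries k} (hα : α ≠ 0) :
    ∃ (j : ℕ) (v : PowerSeries k), v * α = PowerSeries.X ^ j := by
  obtain ⟨j, v, hv⟩ := IsDiscreteValuationRing.eq_unit_mul_pow_irreducible hα
    (PowerSeries.X_irreducible (R := k))
  exact ⟨j, (v⁻¹ : (PowerSeries k)ˣ), by rw [hv, Units.inv_mul_cancel_left]⟩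

theorem Reg2.pow {S : Type u} [CommRing S] {M : Type u} [AddCommGroup M] [Module S M] {a b : S}
    (h : Reg2 M a b) (j : ℕ) : ∀ m m' : M, b ^ j • m = a • m' → ∃ m'', m = a • m'' := by
  induction j with
  | zero => exact fun m m' hm => ⟨m', by simpa using hm⟩
  | succ j ih =>
    intro m m' hm
    rw [pow_succ, mul_smul] at hm
    obtain ⟨n, hn⟩ := ih _ _ hm
    exact h.2 _ _ hn

theorem free_of_reg2 (M : Type u) [AddCommGroup M] [Module (B k) M] [Module.Finite (B k) M]
    (h : Reg2 M (w k) (t k)) : Module.Free (B k) M := by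
  have : Module.FinitePresentation (B k) M := Module.finitePresentation_of_finite _ _
  have hw : w k ∈ (⊥ : Ideal (B k)).jacobson := by
    rw [IsLocalRing.jacobson_eq_maximalIdeal _ bot_ne_top]
    exact w_mem
  rw [← Module.free_quotSMulTop_iff_free (B k) M hw (IsSMulRegular.of_right_eq_zero_of_smul h.1)]
  have hp : (Ideal.span {w k}).IsPrime := PowerSeries.span_X_isPrime
  have hs : Function.Surjective
      ((Ideal.Quotient.mk (Ideal.span {w k})).comp (PowerSeries.C (R := PowerSeries k))) := by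
    intro z
    obtain ⟨z, rfl⟩ := Ideal.Quotient.mk_surjective z
    obtain ⟨g, hg⟩ := decomp z
    refine ⟨PowerSeries.constantCoeff z, ?_⟩
    rw [RingHom.comp_apply, eq_comm, Ideal.Quotient.eq, Ideal.mem_span_singleton]
    exact ⟨g, by linear_combination hg⟩
  have : IsPrincipalIdealRing (B k ⧸ Ideal.span {w k}) := IsPrincipalIdealRing.of_surjective _ hs
  have : Module.Finite (B k ⧸ Ideal.span {w k}) (QuotSMulTop (w k) M) :=
    Module.Finite.of_restrictScalars_finite (B k) _ _
  have : Module.IsTorsionFree (B k ⧸ Ideal.span {w k}) (QuotSMulTop (w k) M) := by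
    refine Module.IsTorsionFree.of_smul_eq_zero fun r m hrm => ?_
    obtain ⟨α, rfl⟩ := hs r
    obtain ⟨m, rfl⟩ := Submodule.mkQ_surjective _ m
    by_cases hα : α = 0
    · left; simp [hα]
    right
    obtain ⟨j, v, hv⟩ := O_decomp hα
    have h1 : (Submodule.Quotient.mk (PowerSeries.C α • m) : QuotSMulTop (w k) M) = 0 := hrm
    rw [Submodule.Quotient.mk_eq_zero, Submodule.mem_smul_pointwise_iff_exists] at h1
    obtain ⟨m', -, hm'⟩ := h1
    obtain ⟨m'', hm''⟩ := h.pow j m (PowerSeries.C v • m') (by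
      rw [smul_comm, hm', smul_smul, ← map_mul, hv, map_pow, t])
    rw [Submodule.mkQ_apply, Submodule.Quotient.mk_eq_zero,
      Submodule.mem_smul_pointwise_iff_exists]
    exact ⟨m'', trivial, hm''.symm⟩
  infer_instance

theorem length_quot_free {S : Type u} [CommRing S] [Nontrivial S] (I : Ideal S) (M : Type u)
    [AddCommGroup M] [Module S M] [Module.Finite S M] [Module.Free S M] :
    Module.length S (M ⧸ (I • ⊤ : Submodule S M)) =
      Module.finrank S M * Module.length S (S ⧸ I) := by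
  classical
  let b := Module.finBasis S M
  rw [← (TensorProduct.quotTensorEquivQuotSMul M I).length_eq,
    (LinearEquiv.lTensor (S ⧸ I) b.equivFun).length_eq,
    (TensorProduct.piScalarRight S S (S ⧸ I) (Fin (Module.finrank S M))).length_eq,
    Module.length_pi_of_fintype]
  simp

namespace Nodal

variable {T : Type u} [CommRing T] [Algebra (B k) T] [IsLocalRing T] (h : Nodal k T)

include h in
theorem sq_decomp {z : T} (hz : z ∈ maximalIdeal T) :
    ∃ c d : T, z ^ 2 = algebraMap (B k) T (t k) * c + algebraMap (B k) T (w k) * d := by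
  obtain ⟨a, ha, b, rfl⟩ := h.max_decomp hz
  obtain ⟨c, d, rfl⟩ := mem_max_decomp ha
  refine ⟨algebraMap (B k) T c * (algebraMap (B k) T (t k * c + w k * d) +
      2 * algebraMap (B k) T b * h.x),
    algebraMap (B k) T d * (algebraMap (B k) T (t k * c + w k * d) +
      2 * algebraMap (B k) T b * h.x) + algebraMap (B k) T b ^ 2 * h.x, ?_⟩
  simp only [map_add, map_mul]
  linear_combination (algebraMap (B k) T b) ^ 2 * h.x_sq

omit [IsLocalRing T] in
include h in
theorem dich (a : T) : (∃ d : T, a ^ 2 = algebraMap (B k) T (w k) * d) ∨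
    ∃ (j : ℕ) (c d : T), algebraMap (B k) T (t k) ^ j = a * c + algebraMap (B k) T (w k) * d := by
  obtain ⟨a₀, β, rfl⟩ := h.span a
  obtain ⟨g, hg⟩ := decomp a₀
  generalize PowerSeries.constantCoeff a₀ = α at hg
  subst hg
  by_cases hα : α = 0
  · left
    refine ⟨algebraMap (B k) T g * (algebraMap (B k) T (w k * g) +
      2 * algebraMap (B k) T β * h.x) + algebraMap (B k) T β ^ 2 * h.x, ?_⟩
    simp only [hα, map_zero, add_zero, map_mul]
    linear_combination (algebraMap (B k) T β) ^ 2 * h.x_sq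
  · right
    obtain ⟨j, v, hv⟩ := O_decomp hα
    have h1 : algebraMap (B k) T (PowerSeries.C v) * algebraMap (B k) T (PowerSeries.C α) =
        algebraMap (B k) T (t k) ^ j := by
      rw [← map_mul, ← map_mul, hv, map_pow, map_pow, t]
    refine ⟨2 * j, algebraMap (B k) T (PowerSeries.C v) ^ 2 *
      (algebraMap (B k) T (PowerSeries.C α) - algebraMap (B k) T β * h.x),
      algebraMap (B k) T (PowerSeries.C v) ^ 2 * (algebraMap (B k) T β ^ 2 * h.x -
        algebraMap (B k) T g *
        (algebraMap (B k) T (PowerSeries.C α) - algebraMap (B k) T β * h.x)), ?_⟩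
    rw [pow_mul', ← h1]
    simp only [map_add, map_mul]
    linear_combination
      (algebraMap (B k) T (PowerSeries.C v)) ^ 2 * (algebraMap (B k) T β) ^ 2 * h.x_sq

variable {N : Type u} [AddCommGroup N] [Module T N] [Module.Finite T N]

include h in
theorem w_reg {a b : T} (ha : a ∈ maximalIdeal T) (hb : b ∈ maximalIdeal T) (hN : Reg2 N a b)
    (n : N) (hn : algebraMap (B k) T (w k) • n = 0) : n = 0 := by
  have := h.noeth
  rcases h.dich a with ⟨d, hd⟩ | ⟨j, c, d, hj⟩
  · refine hN.1 _ (hN.1 _ ?_)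
    rw [smul_smul, ← pow_two, hd, mul_comm, mul_smul, hn, smul_zero]
  let N₀ : Submodule T N := LinearMap.ker (LinearMap.lsmul T N (algebraMap (B k) T (w k)))
  suffices N₀ = ⊥ by
    have h1 : n ∈ N₀ := hn
    rwa [this] at h1
  refine Submodule.eq_bot_of_le_smul_of_le_jacobson_bot (maximalIdeal T) N₀
    (IsNoetherian.noetherian _) (fun m hm => ?_)
    (IsLocalRing.jacobson_eq_maximalIdeal _ bot_ne_top).ge
  have hm' : algebraMap (B k) T (w k) • m = 0 := hm
  obtain ⟨c', d', hb2⟩ := h.sq_decomp hb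
  obtain ⟨e, he⟩ : algebraMap (B k) T (w k) ∣
      (b ^ 2) ^ j - (algebraMap (B k) T (t k) * c') ^ j :=
    Dvd.dvd.trans ⟨d', by linear_combination hb2⟩ (sub_dvd_pow_sub_pow _ _ j)
  obtain ⟨m', rfl⟩ := hN.pow (2 * j) m ((c * c' ^ j) • m) (by
    have : b ^ (2 * j) = a * (c * c' ^ j) + (d * c' ^ j + e) * algebraMap (B k) T (w k) := by
      rw [pow_mul, mul_pow] at *
      linear_combination he + c' ^ j * hj
    rw [this, add_smul, mul_smul (d * c' ^ j + e), hm', smul_zero, add_zero, mul_smul])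
  refine Submodule.smul_mem_smul ha (hN.1 _ ?_)
  rw [LinearMap.lsmul_apply, smul_comm, hm']

include h in
theorem reg2_wt {a b : T} (ha : a ∈ maximalIdeal T) (hb : b ∈ maximalIdeal T) (hN : Reg2 N a b) :
    Reg2 N (algebraMap (B k) T (w k)) (algebraMap (B k) T (t k)) := by
  have hw := h.w_reg ha hb hN
  refine ⟨hw, fun n n' hn => ?_⟩
  have socle : ∀ m : N, (∀ c ∈ maximalIdeal T, ∃ m', c • m = algebraMap (B k) T (w k) • m') →
      ∃ m', m = algebraMap (B k) T (w k) • m' := by
    intro m hm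
    obtain ⟨m₁, h1⟩ := hm a ha
    obtain ⟨m₂, h2⟩ := hm b hb
    obtain ⟨m₃, rfl⟩ := hN.2 m₁ m₂ (sub_eq_zero.mp (hw _ (by
      rw [smul_sub, smul_comm _ b m₁, ← h1, smul_comm _ a m₂, ← h2, smul_comm b a m, sub_self])))
    refine ⟨m₃, sub_eq_zero.mp (hN.1 _ ?_)⟩
    rw [smul_sub, h1, smul_comm, sub_self]
  have key : ∀ m m₁ m₂ : N, algebraMap (B k) T (t k) • m = algebraMap (B k) T (w k) • m₁ →
      h.x • m = algebraMap (B k) T (w k) • m₂ → ∃ m', m = algebraMap (B k) T (w k) • m' := by
    intro m m₁ m₂ h1 h2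
    refine socle m fun c hc => ?_
    obtain ⟨a, ha, β, rfl⟩ := h.max_decomp hc
    obtain ⟨α, γ, rfl⟩ := mem_max_decomp ha
    refine ⟨algebraMap (B k) T α • m₁ + algebraMap (B k) T γ • m + algebraMap (B k) T β • m₂, ?_⟩
    rw [map_add, map_mul, map_mul, add_smul, add_smul, mul_comm _ (algebraMap (B k) T α),
      mul_smul, h1, mul_smul, mul_smul, h2, smul_add, smul_add, smul_comm (algebraMap (B k) T α),
      smul_comm (algebraMap (B k) T β)]
  obtain ⟨m₂, hm₂⟩ := key (h.x • n) (h.x • n') (h.x • n) (by rw [smul_comm, hn, smul_comm])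
    (by rw [smul_smul, h.x_sq, mul_smul])
  exact key n n' m₂ hn hm₂

end Nodal

end Pool.Agent.H482Z.BCM
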