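import Pool.Agent.H482Z.BCM.Unbounded

set_option autoImplicit false

/-!
General lemmas: elimination, contraction of ideals, recognition of the completion.
-/

namespace Pool.Agent.H482Z.BCM

universe u

open Polynomial

theorem elim {A : Type u} [CommRing A] [IsDomain A] [UniqueFactorizationMonoid A]
    (p : Ideal A[X]) (hp : p.IsPrime) (hn : ∀ f, p ≠ Ideal.span {f}) :
    ∃ a : A, a ≠ 0 ∧ C a ∈ p := by
  classical
  by_contra hc
  push Not at hc
  have h0 : p ≠ ⊥ := fun h => hn 0 (by simpa using h)
  obtain ⟨f, hfp, hf⟩ := hp.exists_mem_prime_of_ne_bot h0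
  have hle : Ideal.span {f} ≤ p := by simpa [Ideal.span_le] using hfp
  obtain ⟨g, hgp, hg⟩ := SetLike.exists_of_lt (lt_of_le_of_ne hle (hn f).symm)
  rw [Ideal.mem_span_singleton] at hg
  have hdeg : f.natDegree ≠ 0 := by
    intro hd
    rw [natDegree_eq_zero] at hd
    obtain ⟨a, rfl⟩ := hd
    exact hc a (fun h => hf.ne_zero (by simp [h])) hfp
  have hprim : f.IsPrimitive := hf.irreducible.isPrimitive hdeg
  let K := FractionRing A
  let : NormalizedGCDMonoid A := Nonempty.some inferInstance
  have hirr : Irreducible (f.map (algebraMap A K)) :=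
    (hprim.irreducible_iff_irreducible_map_fraction_map (K := K)).mp hf.irreducible
  have hnd : ¬ f.map (algebraMap A K) ∣ g.map (algebraMap A K) := by
    intro hd
    exact hg ((hprim.dvd_iff_fraction_map_dvd_fraction_map K).mpr hd)
  obtain ⟨u, v, huv⟩ := (hirr.coprime_iff_not_dvd).mpr hnd
  obtain ⟨b, hb, hu⟩ := IsLocalization.integerNormalization_spec (nonZeroDivisors A) u
  obtain ⟨c, hc', hv⟩ := IsLocalization.integerNormalization_spec (nonZeroDivisors A) v
  refine hc (b * c) (mul_ne_zero (nonZeroDivisors.ne_zero hb) (nonZeroDivisors.ne_zero hc')) ?_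
  have key : C (b * c) = C c * IsLocalization.integerNormalization (nonZeroDivisors A) u * f +
      C b * IsLocalization.integerNormalization (nonZeroDivisors A) v * g := by
    apply Polynomial.map_injective (algebraMap A K) (IsFractionRing.injective A K)
    simp only [Polynomial.map_add, Polynomial.map_mul, map_C, hu, hv, map_mul,
      Algebra.smul_def, Polynomial.algebraMap_apply]
    linear_combination (-(C (algebraMap A K b) * C (algebraMap A K c))) * huv
  rw [key]
  exact add_mem (Ideal.mul_mem_left _ _ hfp) (Ideal.mul_mem_left _ _ hgp)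

theorem contract {R T : Type u} [CommRing R] [CommRing T] (φ : R →+* T) {a b : R}
    (h : Reg2 T (φ a) (φ b)) (hb : ∀ z : T, φ b * z = 0 → z = 0)
    (h1 : ∀ (r : R) (c d : T), φ r = φ a * c + φ b * d → ∃ c' d', r = a * c' + b * d')
    (i j : ℕ) : ∀ (r : R) (c d : T), φ r = φ a ^ i * c + φ b ^ j * d →
      ∃ c' d', r = a ^ i * c' + b ^ j * d' := by
  have h2 : ∀ (j : ℕ) (r : R) (c d : T), φ r = φ a * c + φ b ^ j * d →
      ∃ c' d', r = a * c' + b ^ j * d' := by
    intro j
    induction j with
    | zero => exact fun r c d _ => ⟨0, r, by simp⟩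
    | succ j ih =>
      intro r c d hr
      obtain ⟨c', d', rfl⟩ := h1 r c (φ b ^ j * d) (by rw [hr]; ring)
      obtain ⟨e, he⟩ := h.2 (φ d' - φ b ^ j * d) (c - φ c') (by
        simp only [map_add, map_mul] at hr
        simp only [smul_eq_mul]
        linear_combination hr)
      obtain ⟨c'', d'', rfl⟩ := ih d' e d (by rw [smul_eq_mul] at he; linear_combination he)
      exact ⟨c' + b * c'', d'', by ring⟩
  have hs := h.swap hb
  induction i with
  | zero => exact fun r c d _ => ⟨r, 0, by simp⟩
  | succ i ih =>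
    intro r c d hr
    obtain ⟨c', d', rfl⟩ := h2 j r (φ a ^ i * c) d (by rw [hr]; ring)
    obtain ⟨e, he⟩ := h.pow j (d - φ d') (φ c' - φ a ^ i * c) (by
      simp only [map_add, map_mul, map_pow] at hr
      simp only [smul_eq_mul]
      linear_combination -hr)
    obtain ⟨c'', d'', rfl⟩ := ih c' c e (by
      refine sub_eq_zero.mp (h.1 _ ?_)
      simp only [map_add, map_mul, map_pow] at hr
      simp only [smul_eq_mul] at he ⊢
      linear_combination hr + φ b ^ j * he)
    exact ⟨c'', d' + a * d'', by ring⟩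

theorem exists_iso {R T : Type u} [CommRing R] [CommRing T] [Algebra R T] (I : Ideal R)
    (hc : ∀ n (r : R), algebraMap R T r ∈ (I ^ n).map (algebraMap R T) → r ∈ I ^ n)
    (hd : ∀ n (z : T), ∃ r : R, z - algebraMap R T r ∈ (I ^ n).map (algebraMap R T))
    (hH : ∀ z : T, (∀ n, z ∈ (I ^ n).map (algebraMap R T)) → z = 0)
    (hP : ∀ f : ℕ → T, (∀ n, f n - f (n + 1) ∈ (I ^ n).map (algebraMap R T)) →
      ∃ g, ∀ n, f n - g ∈ (I ^ n).map (algebraMap R T)) :
    Nonempty (T ≃+* AdicCompletion I R) := by
  let q : ∀ n, R ⧸ I ^ n →+* T ⧸ (I ^ n).map (algebraMap R T) := fun n =>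
    Ideal.quotientMap _ (algebraMap R T) Ideal.le_comap_map
  have hq : ∀ n, Function.Bijective (q n) := by
    intro n
    constructor
    · exact Ideal.quotientMap_injective' fun r hr => hc n r hr
    · intro z
      obtain ⟨z, rfl⟩ := Ideal.Quotient.mk_surjective z
      obtain ⟨r, hr⟩ := hd n z
      refine ⟨Ideal.Quotient.mk _ r, ?_⟩
      rw [Ideal.quotientMap_mk, eq_comm, Ideal.Quotient.eq]
      exact hr
  let f : ∀ n, T →+* R ⧸ I ^ n := fun n =>
    (RingEquiv.ofBijective (q n) (hq n)).symm.toRingHom.comp (Ideal.Quotient.mk _)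
  have hf : ∀ n (z : T) (r : R), f n z = Ideal.Quotient.mk _ r ↔
      z - algebraMap R T r ∈ (I ^ n).map (algebraMap R T) := by
    intro n z r
    rw [← Ideal.Quotient.eq]
    exact (RingEquiv.ofBijective (q n) (hq n)).symm_apply_eq
  have hcomp : ∀ {m n : ℕ} (hle : m ≤ n), (Ideal.Quotient.factorPow I hle).comp (f n) = f m := by
    intro m n hle
    ext z
    obtain ⟨r, hr⟩ := hd n z
    rw [RingHom.comp_apply, (hf n z r).mpr hr,
      (hf m z r).mpr (Ideal.map_mono (Ideal.pow_le_pow_right hle) hr)]
    rfl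
  refine ⟨RingEquiv.ofBijective (AdicCompletion.liftRingHom I f hcomp) ⟨?_, ?_⟩⟩
  · rw [injective_iff_map_eq_zero]
    intro z hz
    refine hH z fun n => ?_
    have := congrArg (AdicCompletion.evalₐ I n) hz
    rw [AdicCompletion.evalₐ_liftRingHom, map_zero] at this
    simpa using (hf n z 0).mp (by simpa using this)
  · intro x
    choose r hr using fun n => Ideal.Quotient.mk_surjective (AdicCompletion.evalₐ I n x)
    obtain ⟨g, hg⟩ := hP (fun n => algebraMap R T (r n)) fun n => by
      rw [← map_sub]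
      refine Ideal.mem_map_of_mem _ (Ideal.Quotient.eq.mp ?_)
      obtain ⟨s, rfl⟩ := AdicCompletion.mk_surjective I R x
      have h1 := hr n
      have h2 := hr (n + 1)
      rw [AdicCompletion.evalₐ_mk] at h1 h2
      rw [h1]
      have h3 := Ideal.pow_le_pow_right (Nat.le_succ n) (Ideal.Quotient.eq.mp h2)
      rw [Ideal.Quotient.eq.mpr h3, Ideal.Quotient.eq]
      have := s.2 (Nat.le_succ n)
      rw [SModEq.sub_mem] at this
      simpa using this
    refine ⟨g, AdicCompletion.ext_evalₐ fun n => ?_⟩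
    rw [AdicCompletion.evalₐ_liftRingHom, ← hr, hf]
    simpa using neg_mem (hg n)

end Pool.Agent.H482Z.BCM
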