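import Mathlib

set_option autoImplicit false

/-!
Herbrand differences: for `x y = 0` the lengths of `ker x / im y` and `ker y / im x`.
-/

namespace Pool.Agent.H482Z.BCM

universe u

open Submodule LinearMap

variable {T : Type u} [CommRing T]
variable {N : Type u} [AddCommGroup N] [Module T N] {N' : Type u} [AddCommGroup N'] [Module T N']

/-- length of the image of `P` in `N / Q` -/
noncomputable def rel (P Q : Submodule T N) : ℕ∞ := Module.length T (P.map Q.mkQ)

theorem rel_map (f : N →ₗ[T] N') (P : Submodule T N) (Q : Submodule T N') :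
    rel (P.map f) Q = rel P (Q.comap f) := by
  let g := (Q.comap f).mapQ Q f le_rfl
  have hg : Function.Injective g := by
    rw [← ker_eq_bot, ker_mapQ, mkQ_map_self]
  unfold rel
  rw [(equivMapOfInjective g hg (P.map (Q.comap f).mkQ)).length_eq, ← Submodule.map_comp,
    ← Submodule.map_comp, mapQ_mkQ]

theorem rel_congr {P Q Q' : Submodule T N} (h : P ⊓ Q = P ⊓ Q') : rel P Q = rel P Q' := by
  have h1 : ∀ Q : Submodule T N, rel P Q = rel ⊤ (Q.comap P.subtype) := fun Q => by
    rw [← rel_map, map_subtype_top]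
  rw [h1, h1]
  congr 1
  ext v
  have := SetLike.ext_iff.mp h (v : N)
  simpa using this

theorem rel_sup (P Q : Submodule T N) : rel (P ⊔ Q) Q = rel P Q := by
  unfold rel
  rw [Submodule.map_sup, mkQ_map_self, sup_bot_eq]

theorem rel_tower {Q P P' : Submodule T N} (h1 : Q ≤ P) (h2 : P ≤ P') :
    rel P' Q = rel P Q + rel P' P := by
  unfold rel
  let g₀ : (N ⧸ Q) →ₗ[T] N ⧸ P := Q.mapQ P LinearMap.id h1
  have hg : ∀ v ∈ P'.map Q.mkQ, g₀ v ∈ P'.map P.mkQ := by
    rintro _ ⟨v, hv, rfl⟩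
    exact ⟨v, hv, rfl⟩
  refine Module.length_eq_add_of_exact (inclusion (map_mono h2)) (g₀.restrict hg)
    (inclusion_injective _) ?_ ?_
  · rintro ⟨_, v, hv, rfl⟩
    exact ⟨⟨_, v, hv, rfl⟩, rfl⟩
  · rintro ⟨_, v, hv, rfl⟩
    constructor
    · intro h
      have h3 : P.mkQ v = 0 := congrArg Subtype.val h
      exact ⟨⟨_, v, (Submodule.Quotient.mk_eq_zero _).mp h3, rfl⟩, rfl⟩
    · rintro ⟨⟨_, v', hv', rfl⟩, h⟩
      rw [← h]
      exact Subtype.ext ((Submodule.Quotient.mk_eq_zero _).mpr hv')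

theorem rel_eq_zero {P Q : Submodule T N} (h : P ≤ Q) : rel P Q = 0 := by
  unfold rel
  have : P.map Q.mkQ = ⊥ := by
    rw [eq_bot_iff, map_le_iff_le_comap, comap_bot, ker_mkQ]
    exact h
  rw [this, Module.length_bot]

theorem rel_pos {P Q : Submodule T N} (h : ¬ P ≤ Q) : 1 ≤ rel P Q := by
  unfold rel
  rw [Order.one_le_iff_ne_zero, Ne, Module.length_eq_zero_iff, subsingleton_iff_eq_bot,
    eq_bot_iff, map_le_iff_le_comap, comap_bot, ker_mkQ]
  exact h

theorem rel_le_length (P Q : Submodule T N) : rel P Q ≤ Module.length T N :=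
  (Module.length_le_of_injective _ (P.map Q.mkQ).injective_subtype).trans
    (Module.length_le_of_surjective _ Q.mkQ_surjective)

/-- length of `ker x / im y` -/
noncomputable def hh (x y : T) (N : Type u) [AddCommGroup N] [Module T N] : ℕ∞ :=
  rel (ker (lsmul T N x)) (range (lsmul T N y))

theorem hh_equiv (x y : T) (e : N ≃ₗ[T] N') : hh x y N = hh x y N' := by
  unfold hh
  have h1 : ker (lsmul T N' x) = (ker (lsmul T N x)).map e.toLinearMap := by
    ext v
    obtain ⟨v, rfl⟩ := e.surjective v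
    simp [← map_smul]
  rw [h1, rel_map]
  congr 1
  ext v
  simp only [LinearMap.mem_range, lsmul_apply, mem_comap, LinearEquiv.coe_coe]
  constructor
  · rintro ⟨u, rfl⟩
    exact ⟨e u, by simp⟩
  · rintro ⟨u, hu⟩
    exact ⟨e.symm u, e.injective (by simp [hu])⟩

section exact

variable {A C : Type u} [AddCommGroup A] [Module T A] [AddCommGroup C] [Module T C]
  (i : A →ₗ[T] N) (p : N →ₗ[T] C) (hi : Function.Injective i) (hp : Function.Surjective p)
  (hex : Function.Exact i p) {x y : T} (hxy : x * y = 0)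

include hxy in
theorem range_le_ker : range (lsmul T N y) ≤ ker (lsmul T N x) := by
  rintro _ ⟨v, rfl⟩
  rw [mem_ker, lsmul_apply, lsmul_apply, smul_smul, hxy, zero_smul]

include hi hxy in
theorem hh_left : hh x y A =
    rel (range i ⊓ range (lsmul T N y)) ((range i).map (lsmul T N y)) +
    rel (range i ⊓ ker (lsmul T N x)) (range (lsmul T N y)) := by
  have h1 : (ker (lsmul T A x)).map i = range i ⊓ ker (lsmul T N x) := by
    ext v
    simp only [mem_map, mem_ker, lsmul_apply, mem_inf, LinearMap.mem_range]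
    constructor
    · rintro ⟨a, ha, rfl⟩
      exact ⟨⟨a, rfl⟩, by rw [← map_smul, ha, map_zero]⟩
    · rintro ⟨⟨a, rfl⟩, ha⟩
      exact ⟨a, hi (by rw [map_smul, ha, map_zero]), rfl⟩
  have h2 : ((range i).map (lsmul T N y)).comap i = range (lsmul T A y) := by
    ext v
    simp only [mem_comap, mem_map, LinearMap.mem_range, lsmul_apply]
    constructor
    · rintro ⟨_, ⟨a, rfl⟩, ha⟩
      exact ⟨a, hi (by rw [map_smul, ha])⟩
    · rintro ⟨a, rfl⟩
      exact ⟨_, ⟨a, rfl⟩, by rw [map_smul]⟩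
  unfold hh
  rw [← h2, ← rel_map, h1, rel_tower (P := range i ⊓ range (lsmul T N y)) ?_
    (inf_le_inf_left _ (range_le_ker hxy))]
  · congr 1
    refine rel_congr ?_
    rw [← inf_assoc, inf_right_comm (range i), inf_idem]
  · rintro _ ⟨v, hv, rfl⟩
    exact ⟨smul_mem _ _ hv, v, rfl⟩

include hxy in
theorem hh_mid : hh x y N =
    rel (range i ⊓ ker (lsmul T N x)) (range (lsmul T N y)) +
    rel (ker (lsmul T N x)) (range (lsmul T N y) ⊔ range i) := by
  unfold hh
  rw [rel_tower (P := (range i ⊓ ker (lsmul T N x)) ⊔ range (lsmul T N y)) le_sup_right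
    (sup_le inf_le_right (range_le_ker hxy)), rel_sup]
  congr 1
  refine rel_congr ?_
  rw [inf_eq_right.mpr (sup_le inf_le_right (range_le_ker hxy)), sup_comm, inf_comm (ker _),
    sup_inf_assoc_of_le _ (range_le_ker hxy)]

include hp hex hxy in
theorem hh_right : hh x y C =
    rel (ker (lsmul T N x)) (range (lsmul T N y) ⊔ range i) +
    rel (range i ⊓ range (lsmul T N x)) ((range i).map (lsmul T N x)) := by
  have hk : ker p = range i := hex.linearMap_ker_eq
  have h1 : ((range i).comap (lsmul T N x)).map p = ker (lsmul T C x) := by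
    ext v
    obtain ⟨v, rfl⟩ := hp v
    simp only [mem_map, mem_comap, lsmul_apply, ← hk, mem_ker, map_smul]
    constructor
    · rintro ⟨u, hu, h⟩
      rw [← h, hu]
    · exact fun h => ⟨v, h, rfl⟩
  have h2 : (range (lsmul T C y)).comap p = range (lsmul T N y) ⊔ range i := by
    rw [← hk, ← Submodule.comap_map_eq]
    congr 1
    ext v
    simp only [LinearMap.mem_range, lsmul_apply, mem_map]
    constructor
    · rintro ⟨u, rfl⟩
      obtain ⟨u, rfl⟩ := hp u
      exact ⟨_, ⟨u, rfl⟩, by rw [map_smul]⟩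
    · rintro ⟨_, ⟨u, rfl⟩, rfl⟩
      exact ⟨p u, by rw [map_smul]⟩
  unfold hh
  rw [← h1, rel_map, h2,
    rel_tower (P := ker (lsmul T N x) ⊔ (range (lsmul T N y) ⊔ range i)) le_sup_right ?_, rel_sup]
  · congr 1
    rw [← sup_assoc, sup_eq_left.mpr (range_le_ker (N := N) hxy), sup_comm,
      ← Submodule.comap_map_eq,
      ← rel_map, map_comap_eq, inf_comm]
  · refine sup_le ?_ (sup_le ?_ ?_)
    · intro v hv
      rw [mem_comap, mem_ker.mp hv]
      exact zero_mem _
    · intro v hv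
      rw [mem_comap, mem_ker.mp (range_le_ker hxy hv)]
      exact zero_mem _
    · exact fun v hv => smul_mem _ _ hv

end exact

/-- the Herbrand difference is defined and vanishes -/
def Good (x y : T) (N : Type u) [AddCommGroup N] [Module T N] : Prop :=
  hh x y N = hh y x N ∧ hh x y N ≠ ⊤

theorem Good.equiv {x y : T} (h : Good x y N') (e : N ≃ₗ[T] N') : Good x y N := by
  unfold Good at h ⊢
  rwa [hh_equiv x y e, hh_equiv y x e]

theorem enat_aux {a₁ a₂ b₁ b₂ c₁ c₂ : ℕ∞} (h1 : a₂ + b₁ = a₁ + b₂) (h1' : a₂ + b₁ ≠ ⊤)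
    (h2 : c₁ + a₁ = c₂ + a₂) (h2' : c₁ + a₁ ≠ ⊤) : b₁ + c₁ = b₂ + c₂ ∧ b₁ + c₁ ≠ ⊤ := by
  have h3 := h1 ▸ h1'
  have h4 := h2 ▸ h2'
  lift a₁ to ℕ using (WithTop.add_ne_top.mp h3).1
  lift b₂ to ℕ using (WithTop.add_ne_top.mp h3).2
  lift a₂ to ℕ using (WithTop.add_ne_top.mp h1').1
  lift b₁ to ℕ using (WithTop.add_ne_top.mp h1').2
  lift c₁ to ℕ using (WithTop.add_ne_top.mp h2').1
  lift c₂ to ℕ using (WithTop.add_ne_top.mp h4).1
  norm_cast at h1 h2 ⊢
  exact ⟨by omega, ENat.natCast_ne_top _⟩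

section exact

variable {A C : Type u} [AddCommGroup A] [Module T A] [AddCommGroup C] [Module T C]
  (i : A →ₗ[T] N) (p : N →ₗ[T] C) (hi : Function.Injective i) (hp : Function.Surjective p)
  (hex : Function.Exact i p) {x y : T} (hxy : x * y = 0)

include hi hp hex hxy in
theorem Good.mid (hA : Good x y A) (hC : Good x y C) : Good x y N := by
  have hyx : y * x = 0 := by rw [mul_comm, hxy]
  unfold Good at *
  rw [hh_left i hi hxy, hh_left i hi hyx] at hA
  rw [hh_right i p hp hex hxy, hh_right i p hp hex hyx] at hC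
  rw [hh_mid i hxy, hh_mid i hyx]
  exact enat_aux hA.1 hA.2 hC.1 hC.2

include hi hp hex hxy in
theorem Good.right (hA : Good x y A) (hN : Good x y N) : Good x y C := by
  have hyx : y * x = 0 := by rw [mul_comm, hxy]
  unfold Good at *
  rw [hh_left i hi hxy, hh_left i hi hyx] at hA
  rw [hh_right i p hp hex hxy, hh_right i p hp hex hyx]
  rw [hh_mid i hxy, hh_mid i hyx] at hN
  exact enat_aux hN.1 hN.2 hA.1.symm (hA.1 ▸ hA.2)

end exact

end Pool.Agent.H482Z.BCM
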