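import Pool.Agent.H482Z.BCM.Bounded
import Pool.Agent.H482Z.BCM.Herbrand

set_option autoImplicit false

/-!
Lower bounds for the rank of modules over `T` with vanishing Herbrand difference.
-/

namespace Pool.Agent.H482Z.BCM

universe u

open IsLocalRing Submodule

variable {k : Type u} [Field k]

theorem rel_mono {T : Type u} [CommRing T] {N : Type u} [AddCommGroup N] [Module T N]
    {P P' : Submodule T N} (h : P ≤ P') (Q : Submodule T N) : rel P Q ≤ rel P' Q :=
  Module.length_le_of_injective (inclusion (map_mono h)) (inclusion_injective _)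

theorem le_rel {T : Type u} [CommRing T] [IsLocalRing T] {N : Type u} [AddCommGroup N]
    [Module T N] {s : T} (hs : s ∈ maximalIdeal T) (Q : Submodule T N) (n : ℕ) :
    ∀ v : N, s ^ n • v ∉ Q → ((n + 1 : ℕ) : ℕ∞) ≤ rel (span T {v} ⊔ Q) Q := by
  induction n with
  | zero =>
    intro v hv
    refine rel_pos fun h => hv ?_
    rw [pow_zero, one_smul]
    exact h (mem_sup_left (mem_span_singleton_self v))
  | succ n ih =>
    intro v hv
    have h1 := ih (s • v) (by rwa [smul_smul, ← pow_succ])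
    have h2 : span T {s • v} ⊔ Q ≤ span T {v} ⊔ Q :=
      sup_le_sup_right ((span_singleton_le_iff_mem _ _).mpr
        (smul_mem _ _ (mem_span_singleton_self v))) _
    rw [rel_tower le_sup_right h2, Nat.cast_succ]
    refine add_le_add h1 (rel_pos fun h => hv ?_)
    obtain ⟨a, ha, q, hq, e⟩ := mem_sup.mp (h (mem_sup_left (mem_span_singleton_self v)))
    obtain ⟨c, rfl⟩ := mem_span_singleton.mp ha
    have hu : IsUnit (1 - c * s) :=
      isUnit_one_sub_self_of_mem_nonunits _ (Ideal.mul_mem_left _ c hs)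
    have h3 : (1 - c * s) • v ∈ Q := by
      rw [sub_smul, one_smul, mul_smul, sub_eq_iff_eq_add'.mpr e.symm]
      exact hq
    exact smul_mem _ _ ((smul_mem_iff_of_isUnit Q hu).mp h3)

namespace Nodal

variable {T : Type u} [CommRing T] [Algebra (B k) T] [IsLocalRing T] (h : Nodal k T)

/-- an element of `ker x / im y` not killed by `t^n` -/
def P1 (n : ℕ) (N : Type u) [AddCommGroup N] [Module T N] : Prop :=
  ∃ v : N, h.x • v = 0 ∧ ∀ u : N, algebraMap (B k) T (t k) ^ n • v ≠ h.y • u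

/-- `ker y / im x` is killed by the maximal ideal -/
def P2 (N : Type u) [AddCommGroup N] [Module T N] : Prop :=
  ∀ v : N, h.y • v = 0 → ∀ c ∈ maximalIdeal T, ∃ u : N, c • v = h.x • u

variable {N : Type u} [AddCommGroup N] [Module T N]

theorem P2.retract {N' : Type u} [AddCommGroup N'] [Module T N'] (h2 : h.P2 N)
    (i : N' →ₗ[T] N) (p : N →ₗ[T] N') (hp : ∀ v, p (i v) = v) : h.P2 N' := by
  intro v hv c hc
  obtain ⟨u, hu⟩ := h2 (i v) (by rw [← map_smul, hv, map_zero]) c hc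
  exact ⟨p u, by rw [← map_smul, ← hu, map_smul, hp]⟩

omit [IsLocalRing T] in
theorem P1.split {n : ℕ} {N₁ N₂ : Type u} [AddCommGroup N₁] [Module T N₁] [AddCommGroup N₂]
    [Module T N₂] (h1 : h.P1 n N) (i₁ : N₁ →ₗ[T] N) (p₁ : N →ₗ[T] N₁) (i₂ : N₂ →ₗ[T] N)
    (p₂ : N →ₗ[T] N₂) (hp : ∀ v, i₁ (p₁ v) + i₂ (p₂ v) = v) : h.P1 n N₁ ∨ h.P1 n N₂ := by
  obtain ⟨v, hv, hn⟩ := h1
  by_contra hcon
  unfold P1 at hcon
  push Not at hcon
  obtain ⟨u₁, hu₁⟩ := hcon.1 (p₁ v) (by rw [← map_smul, hv, map_zero])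
  obtain ⟨u₂, hu₂⟩ := hcon.2 (p₂ v) (by rw [← map_smul, hv, map_zero])
  apply hn (i₁ u₁ + i₂ u₂)
  rw [smul_add, ← map_smul, ← map_smul, ← hu₁, ← hu₂, map_smul, map_smul, ← smul_add, hp]

theorem low [Module.Finite T N] {a b : T} (ha : a ∈ maximalIdeal T) (hb : b ∈ maximalIdeal T)
    (hN : Reg2 N a b) (hG : Good h.x h.y N) {n : ℕ} (h1 : h.P1 n N) (h2 : h.P2 N) (m : ℕ) :
    (((n + 1) * (m * m) : ℕ) : ℕ∞) ≤
      Module.length T (N ⧸ (maximalIdeal T ^ (2 * m + 1) • ⊤ : Submodule T N)) := by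
  let : Module (B k) N := Module.compHom N (algebraMap (B k) T)
  have : IsScalarTower (B k) T N := IsScalarTower.of_algebraMap_smul fun _ _ => rfl
  have := h.finite
  have : Module.Finite (B k) N := Module.Finite.trans T N
  have hN' := h.reg2_B_of ha hb hN
  have := free_of_reg2 N hN'
  have := free_of_reg2 _ (h.swap.K_reg2 hN')
  refine le_trans ?_ (h.length_mono' _ _ (h.pow_le_map (2 * m)))
  rw [length_quot_free, Nat.cast_mul]
  refine mul_le_mul' ?_ (le_length m)
  obtain ⟨v, hv, hn⟩ := h1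
  have e1 : ((n + 1 : ℕ) : ℕ∞) ≤ hh h.x h.y N := by
    refine (le_rel (h.alg_mem.mpr t_mem) (LinearMap.range (LinearMap.lsmul T N h.y)) n v ?_).trans
      (rel_mono (sup_le ?_ (range_le_ker h.mul)) _)
    · rintro ⟨u, hu⟩
      exact hn u hu.symm
    · exact (span_singleton_le_iff_mem _ _).mpr hv
  have e2 : hh h.y h.x N ≤ Module.finrank (B k) (h.swap.K N) := by
    have e3 : Module.length (B k) (h.swap.K N ⧸
        (maximalIdeal (B k) ^ 1 • ⊤ : Submodule (B k) (h.swap.K N))) ≤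
        Module.finrank (B k) (h.swap.K N) := by
      rw [length_quot_free]
      simpa using mul_le_mul_right (length_le (k := k) 1) _
    refine le_trans ?_ e3
    unfold hh rel
    rw [← h.length_eq]
    let g : h.swap.K N →ₗ[B k] (LinearMap.ker (LinearMap.lsmul T N h.y)).map
        (LinearMap.range (LinearMap.lsmul T N h.x)).mkQ :=
      { toFun := fun v => ⟨_, v, v.2, rfl⟩
        map_add' := fun _ _ => rfl
        map_smul' := fun _ _ => rfl }
    have hg : (maximalIdeal (B k) ^ 1 • ⊤ : Submodule (B k) (h.swap.K N)) ≤ LinearMap.ker g := by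
      rw [pow_one]
      refine Submodule.smul_le.mpr fun c hc v _ => ?_
      obtain ⟨u, hu⟩ := h2 v v.2 _ (h.alg_mem.mpr hc)
      exact Subtype.ext ((Submodule.Quotient.mk_eq_zero _).mpr ⟨u, hu.symm⟩)
    refine Module.length_le_of_surjective (Submodule.liftQ _ g hg) ?_
    rintro ⟨_, v, hv, rfl⟩
    exact ⟨Submodule.Quotient.mk ⟨v, hv⟩, rfl⟩
  refine e1.trans (hG.1 ▸ e2.trans ?_)
  exact_mod_cast Submodule.finrank_le _

include h in
theorem φ₁_pow {j : ℕ} {z : T} (hz : z ∈ maximalIdeal T ^ j) :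
    h.φ₁ z ∈ maximalIdeal (B k) ^ j := by
  rcases j with _ | j
  · simp
  · obtain ⟨a, ha, b, -, rfl⟩ := h.pow_decomp j z hz
    simpa [h.φ₁x] using ha

theorem syz {F : Type u} [AddCommGroup F] [Module T F] (ι : N →ₗ[T] F) (π : F →ₗ[T] T)
    (hι : Function.Injective ι) (hex : Function.Exact ι π)
    (hF : ∀ u : F, h.y • u = 0 → ∃ u', u = h.x • u') {n : ℕ}
    (hπ : ∀ z, z ∈ LinearMap.range π ↔ h.φ₁ z ∈ maximalIdeal (B k) ^ (n + 1)) :
    h.P1 n N ∧ h.P2 N := by
  constructor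
  · obtain ⟨u, hu⟩ := (hπ h.x).mpr (by rw [h.φ₁x]; exact zero_mem _)
    obtain ⟨v, hv⟩ := (hex (h.y • u)).mp (by rw [map_smul, hu, smul_eq_mul, mul_comm, h.mul])
    refine ⟨v, hι (by rw [map_smul, hv, h.x_y, map_zero]), fun v' hv' => ?_⟩
    obtain ⟨u', hu'⟩ := hF (algebraMap (B k) T (t k) ^ n • u - ι v') (by
      rw [smul_sub, smul_comm, ← hv, ← map_smul, hv', map_smul, sub_self])
    have h1 := congrArg π hu'
    rw [map_sub, map_smul, hu, hex.apply_apply_eq_zero, map_smul, sub_zero, smul_eq_mul,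
      smul_eq_mul] at h1
    obtain ⟨c, hc⟩ := h.ann_x (z := algebraMap (B k) T (t k) ^ n - π u') (by
      linear_combination h1)
    have h2 := (hπ (π u')).mp ⟨u', rfl⟩
    have h3 := congrArg h.φ₁ hc
    simp only [map_sub, map_pow, AlgHom.commutes, Algebra.algebraMap_self, RingHom.id_apply,
      map_mul, h.φ₁y] at h3
    apply tpow_not_mem (k := k) n (-h.φ₁ c)
    convert h2 using 1
    linear_combination h3
  · intro v hv c hc
    obtain ⟨u, hu⟩ := hF (ι v) (by rw [← map_smul, hv, map_zero])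
    have h1 := congrArg π hu
    rw [hex.apply_apply_eq_zero, map_smul, smul_eq_mul] at h1
    obtain ⟨c', hc'⟩ := h.ann_x h1.symm
    have h2 := (hπ (π u)).mp ⟨u, rfl⟩
    rw [hc', map_mul, h.φ₁y] at h2
    obtain ⟨u', hu'⟩ := (hπ (c * c')).mpr (by
      rw [map_mul, pow_succ']
      exact Ideal.mul_mem_mul (h.mem_max.mp hc) (mem_pow_of_w_mul h2))
    obtain ⟨v', hv'⟩ := (hex (c • u - h.y • u')).mp (by
      rw [map_sub, map_smul, map_smul, hc', hu', smul_eq_mul, smul_eq_mul]; ring)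
    refine ⟨v', hι ?_⟩
    rw [map_smul, map_smul, hv', hu, smul_sub, h.x_y, sub_zero, smul_comm]

omit [IsLocalRing T] in
theorem good_self : Good h.x h.y T := by
  have h1 : ∀ h : Nodal k T, hh h.x h.y T = 0 := fun h => rel_eq_zero fun z hz => by
    obtain ⟨c, rfl⟩ := h.ann_x hz
    exact ⟨c, rfl⟩
  exact ⟨(h1 h).trans (h1 h.swap).symm, by rw [h1 h]; simp⟩

theorem good_res : Good h.x h.y (T ⧸ maximalIdeal T) := by
  have h1 : ∀ z ∈ maximalIdeal T, LinearMap.lsmul T (T ⧸ maximalIdeal T) z = 0 := by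
    intro z hz
    refine LinearMap.ext fun v => ?_
    obtain ⟨v, rfl⟩ := Ideal.Quotient.mk_surjective v
    exact Ideal.Quotient.eq_zero_iff_mem.mpr (Ideal.mul_mem_right _ _ hz)
  unfold Good hh
  rw [h1 _ h.x_mem, h1 _ h.y_mem]
  refine ⟨rfl, ne_top_of_le_ne_top ?_ (rel_le_length _ _)⟩
  have : IsSimpleModule T (T ⧸ maximalIdeal T) :=
    isSimpleModule_iff_quot_maximal.mpr ⟨_, inferInstance, ⟨LinearEquiv.refl _ _⟩⟩
  rw [Module.length_eq_one]
  simp

end Nodal

end Pool.Agent.H482Z.BCM
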