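import Pool.Agent.H482Z.BCM.General

set_option autoImplicit false

/-!
The nodal cubic `z^2 + z Y - Y^3 = 0` inside `T`, twisted by a power series `τ` in `t`.
-/

namespace Pool.Agent.H482Z.BCM

universe u

open Polynomial IsLocalRing

variable {k : Type u} [Field k] (τ : PowerSeries k)

/-- the twisted coordinate -/
noncomputable def yB : B k := w k + w k ^ 2 - PowerSeries.C τ

/-- evaluation of polynomials in `t` and `y` -/
noncomputable def evB : k[X][X] →+* B k :=
  eval₂RingHom (PowerSeries.C.comp coeToPowerSeries.ringHom) (yB τ)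

theorem evB_C (p : k[X]) : evB τ (C p) = PowerSeries.C (p : PowerSeries k) := by
  simp [evB]

theorem evB_X : evB τ X = yB τ := by simp [evB]

theorem evB_t : evB τ (C X) = t k := by simp [evB, t]

theorem split_t (f : k[X][X]) : ∃ (a : k[X]) (g : k[X][X]), f = a.map C + C X * g := by
  obtain ⟨g, hg⟩ : C X ∣ f - (f.map (evalRingHom 0)).map C := by
    rw [C_dvd_iff_dvd_coeff]
    intro i
    rw [X_dvd_iff]
    simp [coeff_zero_eq_eval_zero]
  exact ⟨_, g, by rw [← hg]; ring⟩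

theorem unit_one_add {a : B k} (ha : a ∈ maximalIdeal (B k)) : IsUnit (1 + a) := by
  by_contra hc
  have h1 : 1 + a ∈ maximalIdeal (B k) := hc
  have h2 := sub_mem h1 ha
  rw [add_sub_cancel_right] at h2
  exact h2 isUnit_one

theorem norm_ne {a b : k[X]} (h : a ^ 2 - a * b * X - b ^ 2 * X ^ 3 = 0) : a = 0 ∧ b = 0 := by
  by_cases hb : b = 0
  · simpa [hb] using h
  by_cases ha : a = 0
  · simp [ha, hb] at h
  exfalso
  have h1 : (a ^ 2).natDegree = 2 * a.natDegree := natDegree_pow _ _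
  have h2 : (a * b * X).natDegree = a.natDegree + b.natDegree + 1 := by
    rw [natDegree_mul_X (mul_ne_zero ha hb), natDegree_mul ha hb]
  have h3 : (b ^ 2 * X ^ 3).natDegree = 2 * b.natDegree + 3 := by
    rw [natDegree_mul_X_pow _ (pow_ne_zero _ hb), natDegree_pow]
  rcases le_or_gt a.natDegree (b.natDegree + 1) with hle | hlt
  · have h4 := natDegree_sub_le (a ^ 2) (a * b * X)
    rw [sub_eq_zero.mp h] at h4
    omega
  · have h4 := natDegree_add_le (a * b * X) (b ^ 2 * X ^ 3)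
    rw [show a * b * X + b ^ 2 * X ^ 3 = a ^ 2 by linear_combination -h] at h4
    omega

theorem X_split {p : k[X]} (hp : p ≠ 0) : ∃ (j : ℕ) (q : k[X]), p = X ^ j * q ∧ ¬ X ∣ q := by
  simpa using (⟨_, exists_eq_pow_rootMultiplicity_mul_and_not_dvd p hp 0⟩ :
    ∃ (j : ℕ) (q : k[X]), p = (X - C 0) ^ j * q ∧ ¬ (X - C 0) ∣ q)

theorem unit_of_not_dvd {S : Type u} [CommRing S] [IsLocalRing S] (P : k[X] →+* S)
    (hX : P X ∈ maximalIdeal S) {q : k[X]} (hq : ¬ X ∣ q) : IsUnit (P q) := by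
  by_contra hc
  have h1 : P q ∈ maximalIdeal S := hc
  have h2 := sub_mem h1 (Ideal.mul_mem_right (P q.divX) _ hX)
  rw [← map_mul, ← map_sub, show q - X * q.divX = C (q.coeff 0) by
    linear_combination -(X_mul_divX_add q)] at h2
  exact h2 ((isUnit_C.mpr (IsUnit.mk0 _ fun h => hq (X_dvd_iff.mpr h))).map P)

theorem trunc_dvd (N : ℕ) :
    (PowerSeries.X : PowerSeries k) ^ N ∣ τ - (PowerSeries.trunc N τ : k[X]) := by
  rw [PowerSeries.X_pow_dvd_iff]
  intro m hm
  simp [PowerSeries.coeff_trunc, hm]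

theorem eval_zero_of_dvd (P : k[X][X])
    (h : ∀ N, (X : k[X]) ^ N ∣ P.eval (PowerSeries.trunc N τ)) :
    P.eval₂ coeToPowerSeries.ringHom τ = 0 := by
  ext N
  have h1 := (trunc_dvd τ (N + 1)).trans (sub_dvd_eval_sub _ _ (P.map coeToPowerSeries.ringHom))
  have h2 := map_dvd (coeToPowerSeries.ringHom (R := k)) (h (N + 1))
  rw [← eval₂_at_apply, ← eval_map, map_pow, coeToPowerSeries.ringHom_apply, coe_X] at h2
  have h3 := dvd_add h1 h2
  rw [coeToPowerSeries.ringHom_apply, sub_add_cancel, eval_map] at h3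
  exact PowerSeries.X_pow_dvd_iff.mp h3 N (Nat.lt_succ_self N)

variable {τ} (hτ : PowerSeries.constantCoeff τ = 0)
include hτ

theorem t_dvd : t k ∣ PowerSeries.C τ := map_dvd _ (PowerSeries.X_dvd_iff.mpr hτ)

theorem yB_mem : yB τ ∈ maximalIdeal (B k) := by
  rw [mem_max_iff]
  simp [yB, w, hτ]

theorem dvd_of_evB {f : k[X][X]} (hf : t k ∣ evB τ f) : C X ∣ f := by
  have h1 : (PowerSeries.map (PowerSeries.constantCoeff (R := k))).comp (evB τ) =
      coeToPowerSeries.ringHom.comp ((compRingHom (X + X ^ 2)).comp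
        (mapRingHom (evalRingHom 0))) := by
    refine Polynomial.ringHom_ext (fun p => ?_) ?_
    · simp [evB_C, ← coeff_zero_eq_eval_zero]
    · simp [evB_X, yB, w, hτ]
  have h2 := RingHom.congr_fun h1 f
  obtain ⟨c, hc⟩ := hf
  rw [RingHom.comp_apply, hc, map_mul, show PowerSeries.map (PowerSeries.constantCoeff (R := k))
    (t k) = 0 by simp [t], zero_mul, eq_comm] at h2
  have h3 : (f.map (evalRingHom 0)).comp (X + X ^ 2) = 0 := by
    apply coe_injective k
    simpa using h2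
  rw [comp_eq_zero_iff] at h3
  rcases h3 with h3 | ⟨-, h3⟩
  · rw [C_dvd_iff_dvd_coeff]
    intro i
    rw [X_dvd_iff, coeff_zero_eq_eval_zero]
    simpa using congrArg (fun p => coeff p i) h3
  · have := congrArg (fun p => coeff p 1) h3
    simp [coeff_X_pow] at this

theorem pow_dvd_of_evB (n : ℕ) : ∀ {f : k[X][X]}, t k ^ n ∣ evB τ f → C X ^ n ∣ f := by
  induction n with
  | zero => simp
  | succ n ih =>
    intro f hf
    obtain ⟨g, rfl⟩ := dvd_of_evB hτ ((dvd_pow_self _ n.succ_ne_zero).trans hf)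
    rw [map_mul, evB_t, pow_succ'] at hf
    rw [pow_succ']
    exact mul_dvd_mul_left _ (ih ((mul_dvd_mul_iff_left t_ne).mp hf))

theorem max_ty {f : B k} (hf : f ∈ maximalIdeal (B k)) : ∃ a b, f = t k * a + yB τ * b := by
  obtain ⟨a, b, rfl⟩ := mem_max_decomp hf
  obtain ⟨e, he⟩ := t_dvd hτ
  obtain ⟨v, hv⟩ := (unit_one_add (w_mem (k := k))).exists_right_inv
  refine ⟨a + e * v * b, v * b, ?_⟩
  rw [yB, he]
  linear_combination (-(w k * b)) * hv

theorem reg2_ty : Reg2 (B k) (t k) (yB τ) := by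
  have h1 : Reg2 (B k) (t k) (w k) :=
    reg2_B.swap fun m hm => (mul_eq_zero.mp hm).resolve_left t_ne
  refine ⟨h1.1, fun m m' hm => ?_⟩
  obtain ⟨e, he⟩ := t_dvd hτ
  obtain ⟨v, hv⟩ := (unit_one_add (w_mem (k := k))).exists_right_inv
  refine h1.2 m (v * (m' + e * m)) ?_
  simp only [smul_eq_mul, yB, he] at hm ⊢
  linear_combination v * hm - (w k * m) * hv

omit hτ

/-- the equation of the nodal cubic -/
noncomputable def Gp (q : k[X][X]) : k[X][X][X] := X ^ 2 + C q * X - C (q ^ 3)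

theorem Gp_monic (q : k[X][X]) : (Gp q).Monic := by
  unfold Gp
  monicity!

theorem Gp_deg (q : k[X][X]) : (Gp q).natDegree = 2 := by
  unfold Gp
  compute_degree!

namespace Nodal

variable {T : Type u} [CommRing T] [Algebra (B k) T] (h : Nodal k T)

/-- the second coordinate on the nodal cubic -/
noncomputable def z : T := algebraMap (B k) T (-((1 + w k) * (w k + w k ^ 2))) +
  algebraMap (B k) T ((1 + 2 * w k) * (1 + w k)) * h.x

theorem z_rel : h.z ^ 2 + algebraMap (B k) T (w k + w k ^ 2) * h.z -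
    algebraMap (B k) T (w k + w k ^ 2) ^ 3 = 0 := by
  apply h.inj
  · simp only [z, map_sub, map_add, map_pow, map_mul, AlgHom.commutes, h.φ₁x, map_neg,
      Algebra.algebraMap_self, RingHom.id_apply]
    ring
  · simp only [z, map_sub, map_add, map_pow, map_mul, AlgHom.commutes, h.φ₂x, map_neg,
      Algebra.algebraMap_self, RingHom.id_apply]
    ring

theorem ups : IsUnit ((1 + 2 * w k) * (1 + w k)) :=
  (unit_one_add (Ideal.mul_mem_left _ _ w_mem)).mul (unit_one_add w_mem)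

theorem x_eq : ∃ a ∈ maximalIdeal (B k), ∃ b : B k,
    h.x = algebraMap (B k) T a + algebraMap (B k) T b * h.z := by
  obtain ⟨v, hv⟩ := (ups (k := k)).exists_left_inv
  refine ⟨v * ((1 + w k) * (1 + w k)) * w k, Ideal.mul_mem_left _ _ w_mem, v, ?_⟩
  have := congrArg (algebraMap (B k) T) hv
  simp only [z, map_mul, map_add, map_neg, map_pow, map_one] at this ⊢
  linear_combination (-h.x) * this

theorem spanz (s : T) : ∃ a b : B k, s = algebraMap (B k) T a + algebraMap (B k) T b * h.z := by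
  obtain ⟨a, b, rfl⟩ := h.span s
  obtain ⟨c, -, d, hx⟩ := h.x_eq
  refine ⟨a + b * c, b * d, ?_⟩
  rw [hx]
  simp only [map_add, map_mul]
  ring

theorem indepz {a b : B k} (hab : algebraMap (B k) T a + algebraMap (B k) T b * h.z = 0) :
    a = 0 ∧ b = 0 := by
  have := h.indep (a := a + b * (-((1 + w k) * (w k + w k ^ 2))))
    (b := b * ((1 + 2 * w k) * (1 + w k))) (by
      rw [← hab, z, map_add, map_mul, map_mul _ b]
      ring)
  have hb : b = 0 := (mul_eq_zero.mp this.2).resolve_right ups.ne_zero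
  exact ⟨by simpa [hb] using this.1, hb⟩

theorem coord {a b c d : B k} {s s' : T} (hab : algebraMap (B k) T a + algebraMap (B k) T b * h.z =
    algebraMap (B k) T c * s + algebraMap (B k) T d * s') :
    (∃ e e', a = c * e + d * e') ∧ ∃ e e', b = c * e + d * e' := by
  obtain ⟨a₁, b₁, rfl⟩ := h.spanz s
  obtain ⟨a₂, b₂, rfl⟩ := h.spanz s'
  have := h.indepz (a := a - (c * a₁ + d * a₂)) (b := b - (c * b₁ + d * b₂)) (by
    simp only [map_sub, map_add, map_mul]
    linear_combination hab)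
  exact ⟨⟨_, _, sub_eq_zero.mp this.1⟩, _, _, sub_eq_zero.mp this.2⟩

variable (τ) in
/-- evaluation of polynomials in `t`, `y`, `z` -/
noncomputable def ev : k[X][X][X] →+* T :=
  eval₂RingHom ((algebraMap (B k) T).comp (evB τ)) h.z

theorem ev_C (p : k[X][X]) : h.ev τ (C p) = algebraMap (B k) T (evB τ p) := by simp [ev]

theorem ev_X : h.ev τ X = h.z := by simp [ev]

theorem ev_Gp {c : B k} {q : k[X][X]} (hq : c ∣ evB τ q - (w k + w k ^ 2)) :
    algebraMap (B k) T c ∣ h.ev τ (Gp q) := by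
  obtain ⟨e, he⟩ := map_dvd (algebraMap (B k) T) hq
  rw [map_sub] at he
  have h1 := h.z_rel
  simp only [Gp, map_sub (h.ev τ), map_add (h.ev τ), map_mul (h.ev τ), map_pow (h.ev τ), ev_C,
    ev_X, map_pow (evB τ), map_pow (algebraMap (B k) T)]
  generalize algebraMap (B k) T (w k + w k ^ 2) = Y at he h1
  generalize algebraMap (B k) T (evB τ q) = Q at he
  exact ⟨e * (h.z - (Q ^ 2 + Q * Y + Y ^ 2)), by
    linear_combination h1 + (h.z - (Q ^ 2 + Q * Y + Y ^ 2)) * he⟩

theorem ev_GN (N : ℕ) :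
    algebraMap (B k) T (t k) ^ N ∣ h.ev τ (Gp (X + C (PowerSeries.trunc N τ))) := by
  rw [← map_pow]
  refine h.ev_Gp ?_
  have := map_dvd (PowerSeries.C (R := PowerSeries k)) (trunc_dvd τ N)
  rw [map_pow, map_sub] at this
  rw [map_add, evB_X, evB_C, yB, ← dvd_neg]
  convert this using 1
  · rfl
  · ring

include hτ in
theorem normal {n : ℕ} {f : k[X][X][X]} (hf : algebraMap (B k) T (t k) ^ n ∣ h.ev τ f) :
    ∃ (a b : k[X]) (c : T), h.ev τ f = algebraMap (B k) T (t k) ^ n *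
      (h.ev τ (C (a.map C)) + h.ev τ (C (b.map C)) * h.z + algebraMap (B k) T (t k) * c) := by
  obtain ⟨e, he⟩ := h.ev_GN (τ := τ) (n + 1)
  set G := Gp (X + C (PowerSeries.trunc (n + 1) τ)) with hG
  have hm : G.Monic := Gp_monic _
  have h1 : (f %ₘ G).natDegree ≤ 1 := by
    have hd : G.natDegree = 2 := Gp_deg _
    have := natDegree_modByMonic_lt f hm (fun h1 => by
      rw [h1] at hd
      simp at hd)
    omega
  obtain ⟨b₀, a₀, h2⟩ := exists_eq_X_add_C_of_natDegree_le_one h1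
  have h3 := congrArg (h.ev τ) (modByMonic_add_div f G)
  rw [h2] at h3
  simp only [map_add, map_mul, ev_C, ev_X, he] at h3
  obtain ⟨s, hs⟩ := hf
  obtain ⟨⟨a₁, _, ha⟩, b₁, _, hb⟩ := h.coord (a := evB τ a₀) (b := evB τ b₀) (c := t k ^ n) (d := 0)
    (s := s - algebraMap (B k) T (t k) * e * h.ev τ (f /ₘ G)) (s' := 0) (by
      rw [map_pow]
      linear_combination h3 + hs)
  obtain ⟨a₂, rfl⟩ := pow_dvd_of_evB hτ n (f := a₀) ⟨a₁, by simpa using ha⟩
  obtain ⟨b₂, rfl⟩ := pow_dvd_of_evB hτ n (f := b₀) ⟨b₁, by simpa using hb⟩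
  obtain ⟨a, a₃, rfl⟩ := split_t a₂
  obtain ⟨b, b₃, rfl⟩ := split_t b₂
  refine ⟨a, b, h.ev τ (C a₃) + h.ev τ (C b₃) * h.z + e * h.ev τ (f /ₘ G), ?_⟩
  simp only [map_add, map_mul, map_pow, evB_t, ev_C] at h3 ⊢
  linear_combination -h3

variable [IsLocalRing T]

theorem z_mem : h.z ∈ maximalIdeal T := by
  refine add_mem (h.alg_mem.mpr (neg_mem (Ideal.mul_mem_left _ _ ?_)))
    (Ideal.mul_mem_left _ _ h.x_mem)
  exact add_mem w_mem (Ideal.pow_mem_of_mem _ w_mem _ two_pos)

include hτ in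
theorem max_tyz {s : T} (hs : s ∈ maximalIdeal T) : ∃ a b c, s =
    algebraMap (B k) T (t k) * a + algebraMap (B k) T (yB τ) * b + h.z * c := by
  obtain ⟨a, b, rfl⟩ := h.spanz s
  have ha : a ∈ maximalIdeal (B k) := by
    have := sub_mem hs (Ideal.mul_mem_left _ (algebraMap (B k) T b) h.z_mem)
    rwa [add_sub_cancel_right, h.alg_mem] at this
  obtain ⟨c, d, rfl⟩ := max_ty hτ ha
  exact ⟨algebraMap (B k) T c, algebraMap (B k) T d, algebraMap (B k) T b, by
    simp only [map_add, map_mul]; ring⟩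

end Nodal

end Pool.Agent.H482Z.BCM
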