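import Pool.Agent.H482Z.BCM.Base

set_option autoImplicit false

/-!
The ring `T = B[x]/(x (w - x))`, i.e. `k[[t,x,y]]/(xy)`, described abstractly.
-/

namespace Pool.Agent.H482Z.BCM

universe u

open IsLocalRing RingTheory.Sequence

/-- elementary form of a weakly regular sequence of length two -/
def Reg2 {S : Type u} [CommRing S] (M : Type u) [AddCommGroup M] [Module S M] (a b : S) : Prop :=
  (∀ m : M, a • m = 0 → m = 0) ∧ ∀ m m' : M, b • m = a • m' → ∃ m'', m = a • m''

theorem reg2_iff {S : Type u} [CommRing S] {M : Type u} [AddCommGroup M] [Module S M] {a b : S} :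
    IsWeaklyRegular M [a, b] ↔ Reg2 M a b := by
  rw [isWeaklyRegular_cons_iff, isWeaklyRegular_singleton_iff,
    isSMulRegular_iff_right_eq_zero_of_smul, isSMulRegular_quotient_iff_mem_of_smul_mem]
  simp only [Submodule.mem_smul_pointwise_iff_exists, Submodule.mem_top, true_and]
  refine and_congr Iff.rfl ⟨fun h m m' hm => ?_, fun h m ⟨m', hm⟩ => ?_⟩
  · obtain ⟨m'', h⟩ := h m ⟨m', hm.symm⟩
    exact ⟨m'', h.symm⟩
  · obtain ⟨m'', h⟩ := h m m' hm.symm
    exact ⟨m'', h.symm⟩

theorem Reg2.swap {S : Type u} [CommRing S] {M : Type u} [AddCommGroup M] [Module S M] {a b : S}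
    (h : Reg2 M a b) (hb : ∀ m : M, b • m = 0 → m = 0) : Reg2 M b a := by
  refine ⟨hb, fun m m' hm => ?_⟩
  obtain ⟨m'', rfl⟩ := h.2 m' m hm.symm
  refine ⟨m'', sub_eq_zero.mp (h.1 _ ?_)⟩
  rw [smul_sub, hm, smul_comm, sub_self]

theorem Reg2.retract {S : Type u} [CommRing S] {M N : Type u} [AddCommGroup M] [Module S M]
    [AddCommGroup N] [Module S N] {a b : S} (h : Reg2 N a b) (i : M →ₗ[S] N) (p : N →ₗ[S] M)
    (hp : ∀ m, p (i m) = m) : Reg2 M a b := by
  refine ⟨fun m hm => ?_, fun m m' hm => ?_⟩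
  · rw [← hp m, h.1 (i m) (by rw [← map_smul, hm, map_zero]), map_zero]
  · obtain ⟨n, hn⟩ := h.2 (i m) (i m') (by rw [← map_smul, hm, map_smul])
    exact ⟨p n, by rw [← map_smul, ← hn, hp]⟩

theorem dim_eq_two {S : Type u} [CommRing S] [IsLocalRing S] [IsNoetherianRing S] {a b : S}
    (ha : a ∈ maximalIdeal S) (hb : b ∈ maximalIdeal S) (h : Reg2 S a b)
    (hrad : ∀ p : Ideal S, p.IsPrime → a ∈ p → b ∈ p → maximalIdeal S ≤ p) :
    IsRegular S [a, b] ∧ ringKrullDim S = 2 := by
  have hreg : IsRegular S [a, b] :=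
    (IsLocalRing.isRegular_iff_isWeaklyRegular_of_subset_maximalIdeal (by simpa using ⟨ha, hb⟩)).mpr
      (reg2_iff.mpr h)
  refine ⟨hreg, ?_⟩
  have h1 := ringKrullDim_add_length_eq_ringKrullDim_of_isRegular _ hreg
  have hle : Ideal.ofList [a, b] ≤ maximalIdeal S := by
    rw [Ideal.span_le]
    intro z hz
    simp only [List.mem_cons, List.not_mem_nil, or_false, Set.mem_ofPred_eq] at hz
    rcases hz with rfl | rfl
    · exact ha
    · exact hb
  have : Nontrivial (S ⧸ Ideal.ofList [a, b]) :=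
    Ideal.Quotient.nontrivial_iff.mpr (ne_top_of_le_ne_top (maximalIdeal.isMaximal S).ne_top hle)
  have h2 : ringKrullDim (S ⧸ Ideal.ofList [a, b]) = 0 := by
    rw [← ringKrullDimZero_iff_ringKrullDim_eq_zero,
      Ideal.krullDimLE_zero_quotient_iff_forall_minimalPrimes_isMaximal]
    intro J hJ
    have h3 := hrad J hJ.1.1 (hJ.1.2 (Ideal.subset_span (by simp)))
      (hJ.1.2 (Ideal.subset_span (by simp)))
    have := (maximalIdeal.isMaximal S).eq_of_le hJ.1.1.ne_top h3
    rw [← this]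
    exact maximalIdeal.isMaximal S
  rw [← h1, h2]
  simp

theorem dimNat_aux {S : Type u} [CommRing S] (h : ringKrullDim S = 2) :
    ((ringKrullDim S).unbotD 0).toNat = 2 := by
  rw [h]
  rfl

variable {k : Type u} [Field k]

theorem reg2_B : Reg2 (B k) (w k) (t k) := by
  refine ⟨fun m hm => (mul_eq_zero.mp hm).resolve_left w_ne, fun m m' hm => ?_⟩
  have h1 := congrArg PowerSeries.constantCoeff hm
  simp only [t, w, smul_eq_mul, map_mul, PowerSeries.constantCoeff_C,
    PowerSeries.constantCoeff_X, zero_mul, mul_eq_zero, PowerSeries.X_ne_zero, false_or] at h1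
  exact PowerSeries.X_dvd_iff.mpr h1

/-- the description of `T` -/
structure Nodal (k : Type u) [Field k] (T : Type u) [CommRing T] [Algebra (B k) T] where
  x : T
  y : T
  add : x + y = algebraMap (B k) T (w k)
  mul : x * y = 0
  span : ∀ z : T, ∃ a b : B k, z = algebraMap (B k) T a + algebraMap (B k) T b * x
  φ₁ : T →ₐ[B k] B k
  φ₂ : T →ₐ[B k] B k
  φ₁x : φ₁ x = 0
  φ₂y : φ₂ y = 0
  inj : ∀ z, φ₁ z = 0 → φ₂ z = 0 → z = 0

namespace Nodal

variable {T : Type u} [CommRing T] [Algebra (B k) T] (h : Nodal k T)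

/-- exchange of the two branches -/
def swap : Nodal k T where
  x := h.y
  y := h.x
  add := by rw [add_comm, h.add]
  mul := by rw [mul_comm, h.mul]
  span := fun z => by
    obtain ⟨a, b, rfl⟩ := h.span z
    refine ⟨a + b * w k, -b, ?_⟩
    rw [map_add, map_mul, ← h.add, map_neg]
    ring
  φ₁ := h.φ₂
  φ₂ := h.φ₁
  φ₁x := h.φ₂y
  φ₂y := h.φ₁x
  inj := fun z h1 h2 => h.inj z h2 h1

theorem φ₁y : h.φ₁ h.y = w k := by
  have := congrArg h.φ₁ h.add
  simpa [h.φ₁x] using this

theorem φ₂x : h.φ₂ h.x = w k := h.swap.φ₁y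

theorem x_sq : h.x * h.x = algebraMap (B k) T (w k) * h.x := by
  rw [← h.add, add_mul, mul_comm h.y, h.mul, add_zero]

theorem ker₁ {z : T} (hz : h.φ₁ z = 0) : ∃ c : B k, z = algebraMap (B k) T c * h.x := by
  obtain ⟨a, b, rfl⟩ := h.span z
  simp only [map_add, AlgHom.commutes, Algebra.algebraMap_self, RingHom.id_apply, map_mul,
    h.φ₁x, mul_zero, add_zero] at hz
  exact ⟨b, by simp [hz]⟩

theorem ann_x {z : T} (hz : h.x * z = 0) : ∃ c : T, z = h.y * c := by
  have h1 := congrArg h.φ₂ hz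
  rw [map_mul, h.φ₂x, map_zero] at h1
  obtain ⟨c, hc⟩ := h.swap.ker₁ ((mul_eq_zero.mp h1).resolve_left w_ne)
  exact ⟨_, hc.trans (mul_comm _ _)⟩

theorem ann_y {z : T} (hz : h.y * z = 0) : ∃ c : T, z = h.x * c := h.swap.ann_x hz

theorem indep {a b : B k} (hab : algebraMap (B k) T a + algebraMap (B k) T b * h.x = 0) :
    a = 0 ∧ b = 0 := by
  have h1 := congrArg h.φ₁ hab
  have h2 := congrArg h.φ₂ hab
  simp only [map_add, AlgHom.commutes, Algebra.algebraMap_self, RingHom.id_apply, map_mul,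
    h.φ₁x, h.φ₂x, mul_zero, add_zero, map_zero] at h1 h2
  refine ⟨h1, ?_⟩
  rw [h1, zero_add] at h2
  exact (mul_eq_zero.mp h2).resolve_right w_ne

include h in
theorem alg_inj : Function.Injective (algebraMap (B k) T) := by
  rw [injective_iff_map_eq_zero]
  intro a ha
  exact (h.indep (a := a) (b := 0) (by simpa using ha)).1

include h in
theorem nontrivial : Nontrivial T := h.alg_inj.nontrivial

theorem isUnit_iff {z : T} : IsUnit z ↔ IsUnit (h.φ₁ z) := by
  refine ⟨fun hz => hz.map _, fun hz => ?_⟩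
  obtain ⟨a, b, rfl⟩ := h.span z
  simp only [map_add, AlgHom.commutes, Algebra.algebraMap_self, RingHom.id_apply, map_mul,
    h.φ₁x, mul_zero, add_zero] at hz
  have h1 : IsUnit (a + b * w k) := by
    by_contra hc
    have h2 : a + b * w k ∈ maximalIdeal (B k) := hc
    have h3 := sub_mem h2 (Ideal.mul_mem_left _ b w_mem)
    rw [add_sub_cancel_right] at h3
    exact h3 hz
  have h2 : (algebraMap (B k) T a + algebraMap (B k) T b * h.x) *
      (algebraMap (B k) T a + algebraMap (B k) T b * h.y) =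
      algebraMap (B k) T (a * (a + b * w k)) := by
    rw [map_mul, map_add, map_mul, ← h.add]
    linear_combination (algebraMap (B k) T b) ^ 2 * h.mul
  exact isUnit_of_mul_isUnit_left (h2 ▸ (hz.mul h1).map _)

include h in
theorem isLocalRing : IsLocalRing T := by
  have := h.nontrivial
  apply IsLocalRing.of_nonunits_add
  intro a b ha hb
  rw [mem_nonunits_iff, h.isUnit_iff] at *
  rw [map_add]
  exact add_mem (show h.φ₁ a ∈ maximalIdeal (B k) from ha) hb

include h in
theorem finite : Module.Finite (B k) T := by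
  classical
  refine ⟨⟨{1, h.x}, ?_⟩⟩
  rw [eq_top_iff]
  intro z _
  obtain ⟨a, b, rfl⟩ := h.span z
  rw [Finset.coe_insert, Finset.coe_singleton, Submodule.mem_span_pair]
  exact ⟨a, b, by simp [Algebra.smul_def]⟩

include h in
theorem noeth : IsNoetherianRing T :=
  have := h.finite
  IsNoetherianRing.of_finite (B k) T

include h in
theorem alg_reg {b : B k} (hb : b ≠ 0) {z : T} (hz : algebraMap (B k) T b * z = 0) : z = 0 := by
  have h1 := congrArg h.φ₁ hz
  have h2 := congrArg h.φ₂ hz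
  simp only [map_mul, AlgHom.commutes, Algebra.algebraMap_self, RingHom.id_apply, map_zero,
    mul_eq_zero, hb, false_or] at h1 h2
  exact h.inj z h1 h2

include h in
theorem reg2_of_B {a b : B k} (hab : Reg2 (B k) a b) (ha : a ≠ 0) :
    Reg2 T (algebraMap (B k) T a) (algebraMap (B k) T b) := by
  refine ⟨fun m hm => h.alg_reg ha hm, fun m m' hm => ?_⟩
  obtain ⟨c, d, rfl⟩ := h.span m
  obtain ⟨c', d', rfl⟩ := h.span m'
  have := h.indep (a := b * c - a * c') (b := b * d - a * d') (by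
    simp only [smul_eq_mul] at hm
    simp only [map_sub, map_mul]
    linear_combination hm)
  obtain ⟨c'', rfl⟩ := hab.2 c c' (sub_eq_zero.mp this.1)
  obtain ⟨d'', rfl⟩ := hab.2 d d' (sub_eq_zero.mp this.2)
  refine ⟨algebraMap (B k) T c'' + algebraMap (B k) T d'' * h.x, ?_⟩
  simp only [smul_eq_mul, map_mul]
  ring

variable [IsLocalRing T]

theorem mem_max {z : T} : z ∈ maximalIdeal T ↔ h.φ₁ z ∈ maximalIdeal (B k) := by
  rw [mem_maximalIdeal, mem_maximalIdeal, mem_nonunits_iff, mem_nonunits_iff, h.isUnit_iff]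

theorem x_mem : h.x ∈ maximalIdeal T := by rw [h.mem_max, h.φ₁x]; exact zero_mem _

theorem y_mem : h.y ∈ maximalIdeal T := h.swap.x_mem

include h in
theorem alg_mem {b : B k} : algebraMap (B k) T b ∈ maximalIdeal T ↔ b ∈ maximalIdeal (B k) := by
  rw [h.mem_max]; simp

include h in
theorem isLocalHom : IsLocalHom (algebraMap (B k) T) :=
  ⟨fun b hb => by
    by_contra hc
    exact (h.alg_mem.mpr hc) hb⟩

theorem max_decomp {z : T} (hz : z ∈ maximalIdeal T) :
    ∃ a ∈ maximalIdeal (B k), ∃ b : B k,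
      z = algebraMap (B k) T a + algebraMap (B k) T b * h.x := by
  obtain ⟨a, b, rfl⟩ := h.span z
  refine ⟨a, ?_, b, rfl⟩
  simpa [h.mem_max, h.φ₁x] using hz

include h in
theorem res_T (z : T) : ∃ a : B k, z - algebraMap (B k) T a ∈ maximalIdeal T := by
  obtain ⟨a, b, rfl⟩ := h.span z
  refine ⟨a, ?_⟩
  rw [add_sub_cancel_left]
  exact Ideal.mul_mem_left _ _ h.x_mem

include h in
theorem map_pow_le (j : ℕ) :
    (maximalIdeal (B k) ^ j).map (algebraMap (B k) T) ≤ maximalIdeal T ^ j := by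
  rw [Ideal.map_pow]
  refine Ideal.pow_right_mono ?_ j
  rw [Ideal.map_le_iff_le_comap]
  exact fun b hb => h.alg_mem.mpr hb

theorem pow_decomp (j : ℕ) : ∀ z ∈ maximalIdeal T ^ (j + 1),
    ∃ a ∈ maximalIdeal (B k) ^ (j + 1), ∃ b ∈ maximalIdeal (B k) ^ j,
      z = algebraMap (B k) T a + algebraMap (B k) T b * h.x := by
  induction j with
  | zero =>
    intro z hz
    rw [zero_add, pow_one] at hz ⊢
    obtain ⟨a, ha, b, rfl⟩ := h.max_decomp hz
    exact ⟨a, ha, b, by simp, rfl⟩
  | succ j ih =>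
    intro z hz
    rw [pow_succ] at hz
    refine Submodule.mul_induction_on hz ?_ ?_
    · intro m hm n hn
      obtain ⟨a, ha, b, hb, rfl⟩ := ih m hm
      obtain ⟨a', ha', b', rfl⟩ := h.max_decomp hn
      refine ⟨a * a', by rw [pow_succ]; exact Ideal.mul_mem_mul ha ha',
        a * b' + b * (a' + b' * w k), ?_, ?_⟩
      · refine add_mem (Ideal.mul_mem_right _ _ ha) ?_
        rw [pow_succ]
        exact Ideal.mul_mem_mul hb (add_mem ha' (Ideal.mul_mem_left _ _ w_mem))
      · simp only [map_mul, map_add]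
        linear_combination (algebraMap (B k) T b) * (algebraMap (B k) T b') * h.x_sq
    · rintro _ _ ⟨a, ha, b, hb, rfl⟩ ⟨a', ha', b', hb', rfl⟩
      refine ⟨a + a', add_mem ha ha', b + b', add_mem hb hb', ?_⟩
      simp only [map_add]
      ring

include h in
theorem pow_le_map (j : ℕ) :
    maximalIdeal T ^ (j + 1) ≤ (maximalIdeal (B k) ^ j).map (algebraMap (B k) T) := by
  intro z hz
  obtain ⟨a, ha, b, hb, rfl⟩ := h.pow_decomp j z hz
  exact add_mem (Ideal.mem_map_of_mem _ (Ideal.pow_le_pow_right (Nat.le_succ j) ha))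
    (Ideal.mul_mem_right _ _ (Ideal.mem_map_of_mem _ hb))

include h in
theorem precomplete (f : ℕ → T) (hf : ∀ n, f n - f (n + 1) ∈ maximalIdeal T ^ n) :
    ∃ g : T, ∀ n, f n - g ∈ maximalIdeal T ^ n := by
  choose a b hab using fun n => h.span (f n)
  have key : ∀ n, a (n + 1) - a (n + 1 + 1) ∈ maximalIdeal (B k) ^ n ∧
      b (n + 1) - b (n + 1 + 1) ∈ maximalIdeal (B k) ^ n := by
    intro n
    obtain ⟨c, hc, d, hd, e⟩ := h.pow_decomp n _ (hf (n + 1))
    have := h.indep (a := a (n + 1) - a (n + 1 + 1) - c) (b := b (n + 1) - b (n + 1 + 1) - d) (by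
      rw [hab (n + 1), hab (n + 1 + 1)] at e
      simp only [map_sub]
      linear_combination e)
    rw [sub_eq_zero.mp this.1, sub_eq_zero.mp this.2]
    exact ⟨Ideal.pow_le_pow_right (Nat.le_succ n) hc, hd⟩
  obtain ⟨a', ha'⟩ := BCM.precomplete (fun n => a (n + 1)) fun n => (key n).1
  obtain ⟨b', hb'⟩ := BCM.precomplete (fun n => b (n + 1)) fun n => (key n).2
  refine ⟨algebraMap (B k) T a' + algebraMap (B k) T b' * h.x, fun n => ?_⟩
  have h1 := add_mem (hf n) (add_mem (h.map_pow_le n (Ideal.mem_map_of_mem _ (ha' n)))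
    (Ideal.mul_mem_right h.x _ (h.map_pow_le n (Ideal.mem_map_of_mem _ (hb' n)))))
  convert h1 using 1
  rw [hab (n + 1)]
  simp only [map_sub]
  ring

include h in
theorem dim : ringKrullDim T = 2 := by
  have := h.noeth
  refine (dim_eq_two (h.alg_mem.mpr w_mem) (h.alg_mem.mpr t_mem)
    (h.reg2_of_B reg2_B w_ne) fun p hp h1 h2 z hz => ?_).2
  obtain ⟨a, ha, b, rfl⟩ := h.max_decomp hz
  obtain ⟨c, d, rfl⟩ := mem_max_decomp ha
  have hx : h.x ∈ p := hp.mem_of_pow_mem 2 (by
    rw [pow_two, h.x_sq]; exact Ideal.mul_mem_right _ _ h1)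
  rw [map_add, map_mul, map_mul]
  exact add_mem (add_mem (Ideal.mul_mem_right _ _ h2) (Ideal.mul_mem_right _ _ h1))
    (Ideal.mul_mem_left _ _ hx)

end Nodal

end Pool.Agent.H482Z.BCM
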