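import Pool.Agent.H482Z.BCM.Ring
import Pool.Agent.H482Z.Liouville

set_option autoImplicit false

/-!
The prime ideals of `R`; `R` is Noetherian of dimension two with completion `T`.
-/

namespace Pool.Agent.H482Z.BCM

universe u

open Polynomial IsLocalRing

variable {k : Type u} [Field k] {τ : PowerSeries k}

theorem wide {D : Type u} [CommRing D] [IsDomain D] (ψ : k[X][X][X] →+* D)
    (hn : ∀ f, RingHom.ker ψ ≠ Ideal.span {f}) :
    ∃ P : k[X][X], P ≠ 0 ∧ ∀ q : k[X], ψ (Gp (X + C q)) ∣ ψ (C (C (P.eval q))) := by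
  let : Algebra k[X] D := (ψ.comp (C.comp C)).toAlgebra
  have ha : ∀ q, algebraMap k[X] D q = ψ (C (C q)) := fun _ => rfl
  have hy : IsAlgebraic k[X] (ψ (C X)) := by
    obtain ⟨a, h0, h1⟩ := elim _ (RingHom.ker_isPrime ψ) hn
    refine ⟨a, h0, ?_⟩
    have : ((aeval (ψ (C X)) : k[X][X] →ₐ[k[X]] D) : k[X][X] →+* D) = ψ.comp C :=
      Polynomial.ringHom_ext (fun p => by simp [ha]) (by simp)
    exact (RingHom.congr_fun this a).trans h1
  have hz : IsAlgebraic k[X] (ψ X) := by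
    let e := (Bivariate.swap (R := k[X])).toRingEquiv
    obtain ⟨a, h0, h1⟩ := elim _ (RingHom.ker_isPrime (ψ.comp e.toRingHom)) fun f hf => by
      refine hn (e f) ?_
      rw [← RingHom.comap_ker] at hf
      rw [← Set.image_singleton, ← Ideal.map_span e, ← hf]
      exact (Ideal.map_comap_of_surjective e e.surjective _).symm
    refine ⟨a, h0, ?_⟩
    have : ((aeval (ψ X) : k[X][X] →ₐ[k[X]] D) : k[X][X] →+* D) = ψ.comp (mapRingHom C) :=
      Polynomial.ringHom_ext (fun p => by simp [ha]) (by simp)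
    refine (RingHom.congr_fun this a).trans ?_
    rw [RingHom.mem_ker] at h1
    rw [← h1]
    exact congrArg ψ (Bivariate.swap_C a).symm
  let : Algebra k[X][X] D[X] := Polynomial.algebra k[X] D
  have hC : ∀ d : D, IsAlgebraic k[X] d → IsAlgebraic k[X][X] (C d : D[X]) := fun d hd =>
    hd.ringHom_of_comp_eq C C C_injective (by ext <;> simp)
  have hX : IsAlgebraic k[X][X] (X : D[X]) := by
    have := isAlgebraic_algebraMap (R := k[X][X]) (A := D[X]) X
    simpa using this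
  have hG := (((hX.add (hC _ hy)).pow 3).sub ((hX.add (hC _ hy)).mul (hC _ hz))).sub
    ((hC _ hz).pow 2)
  have hG0 : ((X + C (ψ (C X))) ^ 3 - (X + C (ψ (C X))) * C (ψ X) - C (ψ X) ^ 2 : D[X]) ≠ 0 := by
    refine Monic.ne_zero ?_
    monicity!
  obtain ⟨P, hP, hd⟩ := hG.exists_nonzero_dvd (mem_nonZeroDivisors_of_ne_zero hG0)
  refine ⟨P, hP, fun q => ?_⟩
  have h1 := map_dvd (evalRingHom (algebraMap k[X] D q)) hd
  rw [show algebraMap k[X][X] D[X] P = P.map (algebraMap k[X] D) from rfl, coe_evalRingHom,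
    eval_map_apply, ← neg_dvd] at h1
  rw [← ha]
  convert h1 using 1
  simp only [Gp, map_sub ψ, map_add, map_mul, map_pow, eval_sub, eval_pow, eval_add, eval_X,
    eval_C, eval_mul, ha]
  ring

namespace Nodal

variable {T : Type u} [CommRing T] [Algebra (B k) T] (h : Nodal k T) [IsLocalRing T]
variable (hτ : PowerSeries.constantCoeff τ = 0)
  (htr : ∀ P : k[X][X], P ≠ 0 → P.eval₂ coeToPowerSeries.ringHom τ ≠ 0)

include htr in
theorem comap_principal {p : Ideal (h.R τ)} (hp : p.IsPrime) (ht : h.tR τ ∉ p) :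
    ∃ f, p.comap (h.evR τ) = Ideal.span {f} := by
  by_contra hc
  push Not at hc
  obtain ⟨P, hP, hd⟩ := wide ((Ideal.Quotient.mk p).comp (h.evR τ)) fun f hf => hc f (by
    rw [← hf, ← RingHom.comap_ker, Ideal.mk_ker])
  refine htr P hP (eval_zero_of_dvd τ P fun N => ?_)
  have h1 := (map_dvd (Ideal.Quotient.mk p) (h.rel_N N)).trans (hd _)
  generalize P.eval (PowerSeries.trunc N τ) = q at h1
  by_cases hq : q = 0
  · simp [hq]
  obtain ⟨j, q, rfl, hq'⟩ := X_split hq
  refine (pow_dvd_pow _ (not_lt.mp fun hlt => ?_)).mul_right _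
  obtain ⟨m, rfl⟩ := Nat.exists_eq_add_of_lt hlt
  have hu := unit_of_not_dvd ((h.evR τ).comp (C.comp C)) h.tR_mem hq'
  have ht0 : Ideal.Quotient.mk p (h.tR τ) ≠ 0 := mt Ideal.Quotient.eq_zero_iff_mem.mp ht
  simp only [map_mul, map_pow, RingHom.comp_apply] at h1
  rw [add_assoc, pow_add] at h1
  have h2 := (dvd_pow_self _ m.succ_ne_zero).trans
    ((mul_dvd_mul_iff_left (pow_ne_zero j ht0)).mp h1)
  obtain ⟨c, hc⟩ := h2
  obtain ⟨c, rfl⟩ := Ideal.Quotient.mk_surjective c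
  rw [← map_mul, Ideal.Quotient.eq] at hc
  have h3 := add_mem (le_maximalIdeal hp.ne_top hc) (Ideal.mul_mem_right c _ h.tR_mem)
  rw [sub_add_cancel] at h3
  exact h3 hu

include hτ htr

theorem primes (p : Ideal (h.R τ)) (hp : p.IsPrime) :
    p = ⊥ ∨ p = maximalIdeal (h.R τ) ∨ ∃ f, f ≠ 0 ∧ p = Ideal.span {f} := by
  have := h.isDomain hτ
  by_cases ht : h.tR τ ∈ p
  · by_cases h1 : ∀ r ∈ p, h.tR τ ∣ r
    · refine Or.inr (Or.inr ⟨_, h.tR_ne, le_antisymm ?_ (by simpa [Ideal.span_le] using ht)⟩)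
      exact fun r hr => Ideal.mem_span_singleton.mpr (h1 r hr)
    · push Not at h1
      obtain ⟨r, hr, h1⟩ := h1
      obtain ⟨j, c, d, h2⟩ := h.y_pow_mem hτ h1
      have hy : h.yR τ ∈ p := hp.mem_of_pow_mem j (h2 ▸ add_mem (Ideal.mul_mem_right _ _ hr)
        (Ideal.mul_mem_right _ _ ht))
      exact Or.inr (Or.inl (le_antisymm (le_maximalIdeal hp.ne_top) (h.prime_t hτ hp ht hy)))
  obtain ⟨f, hf⟩ := h.comap_principal htr hp ht
  have key : ∀ r ∈ p, ∃ n, h.evR τ f ∣ h.tR τ ^ n * r := by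
    intro r hr
    obtain ⟨g, n, v, hv, -, -, h1⟩ := h.frac r
    have h2 : g ∈ p.comap (h.evR τ) := by
      rw [Ideal.mem_comap, ← h1]
      exact Ideal.mul_mem_left _ _ hr
    rw [hf] at h2
    refine ⟨n, hv.dvd_mul_right.mp ?_⟩
    rw [mul_right_comm, h1]
    exact map_dvd _ ((Ideal.mem_span_singleton (α := k[X][X][X])).mp h2)
  by_cases h0 : h.evR τ f = 0
  · refine Or.inl (eq_bot_iff.mpr fun r hr => ?_)
    obtain ⟨n, hn⟩ := key r hr
    rw [h0, zero_dvd_iff] at hn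
    exact (mul_eq_zero.mp hn).resolve_left (pow_ne_zero _ h.tR_ne)
  obtain ⟨i, g, hg, hg'⟩ := h.t_split h0
  refine Or.inr (Or.inr ⟨g, fun h1 => hg' (h1 ▸ dvd_zero _), le_antisymm (fun r hr => ?_) ?_⟩)
  · obtain ⟨n, c, hn⟩ := key r hr
    rw [hg, mul_assoc, mul_left_comm] at hn
    obtain ⟨d, hd⟩ := (h.t_prime hτ).pow_dvd_of_dvd_mul_left n hg' ⟨r, hn.symm⟩
    rw [hd, mul_left_comm] at hn
    exact Ideal.mem_span_singleton.mpr ⟨d, mul_left_cancel₀ (pow_ne_zero _ h.tR_ne) hn⟩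
  · have h1 : f ∈ p.comap (h.evR τ) := hf ▸ Ideal.mem_span_singleton_self f
    rw [Ideal.mem_comap, hg] at h1
    simpa [Ideal.span_le] using (hp.mem_or_mem h1).resolve_left fun h2 => ht (hp.mem_of_pow_mem _ h2)

omit htr in
theorem max_eq : maximalIdeal (h.R τ) =
    (Ideal.span {h.tR τ} ⊔ Ideal.span {h.yR τ}) ⊔ Ideal.span {h.zR τ} := by
  apply le_antisymm
  · intro r hr
    obtain ⟨a, b, c, rfl⟩ := h.max_R hτ hr
    refine add_mem (Ideal.mem_sup_left (add_mem (Ideal.mem_sup_left ?_) (Ideal.mem_sup_right ?_)))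
      (Ideal.mem_sup_right ?_) <;>
    exact Ideal.mul_mem_right _ _ (Ideal.mem_span_singleton_self _)
  · simpa [Ideal.span_le] using ⟨⟨h.tR_mem, h.yR_mem hτ⟩, h.zR_mem⟩

theorem noethR : IsNoetherianRing (h.R τ) := by
  refine IsNoetherianRing.of_prime fun p hp => ?_
  rcases h.primes hτ htr p hp with rfl | rfl | ⟨f, -, rfl⟩
  · exact Submodule.fg_bot
  · rw [h.max_eq hτ]
    exact ((Submodule.fg_span_singleton _).sup (Submodule.fg_span_singleton _)).sup
      (Submodule.fg_span_singleton _)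
  · exact Submodule.fg_span_singleton _

omit htr

theorem map_max : (maximalIdeal (h.R τ)).map (algebraMap (h.R τ) T) = maximalIdeal T := by
  apply le_antisymm
  · rw [Ideal.map_le_iff_le_comap]
    exact fun r hr => h.mem_maxR.mp hr
  · intro s hs
    obtain ⟨a, b, c, rfl⟩ := h.max_tyz hτ hs
    rw [← h.coe_t (τ := τ), ← h.coe_y, ← h.coe_z (τ := τ)]
    exact add_mem (add_mem (Ideal.mul_mem_right _ _ (Ideal.mem_map_of_mem _ h.tR_mem))
      (Ideal.mul_mem_right _ _ (Ideal.mem_map_of_mem _ (h.yR_mem hτ))))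
      (Ideal.mul_mem_right _ _ (Ideal.mem_map_of_mem _ h.zR_mem))

omit hτ in
theorem res_R (s : T) : ∃ r : h.R τ, s - algebraMap (h.R τ) T r ∈ maximalIdeal T := by
  obtain ⟨a, ha⟩ := h.res_T s
  obtain ⟨c, hc⟩ := res_B a
  refine ⟨h.evR τ (C (C (C c))), ?_⟩
  have h1 : algebraMap (h.R τ) T (h.evR τ (C (C (C c)))) =
      algebraMap (B k) T (algebraMap k (B k) c) := by
    refine (h.ev_C _).trans ?_
    rw [evB_C]
    simp [PowerSeries.algebraMap_apply]
  have := add_mem ha (h.alg_mem.mpr hc)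
  rwa [map_sub, sub_add_sub_cancel, ← h1] at this

theorem contract_deep (n : ℕ) (r : h.R τ) (hr : (r : T) ∈ maximalIdeal T ^ (n + n + 1)) :
    r ∈ maximalIdeal (h.R τ) ^ n := by
  have h1 : maximalIdeal (B k) ≤ Ideal.span {t k} ⊔ Ideal.span {yB τ} := by
    intro f hf
    obtain ⟨a, b, rfl⟩ := max_ty hτ hf
    exact add_mem (Ideal.mem_sup_left (Ideal.mul_mem_right _ _ (Ideal.mem_span_singleton_self _)))
      (Ideal.mem_sup_right (Ideal.mul_mem_right _ _ (Ideal.mem_span_singleton_self _)))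
  have h2 := Ideal.map_mono (f := algebraMap (B k) T)
    ((Ideal.pow_right_mono h1 (n + n)).trans Ideal.sup_pow_add_le_pow_sup_pow)
    (h.pow_le_map _ hr)
  rw [Ideal.map_sup, Ideal.span_singleton_pow, Ideal.span_singleton_pow, Ideal.map_span,
    Ideal.map_span, Set.image_singleton, Set.image_singleton, ← Ideal.span_insert,
    Ideal.mem_span_pair] at h2
  obtain ⟨c, d, h2⟩ := h2
  obtain ⟨c', d', rfl⟩ := contract (h.R τ).subtype (a := h.tR τ) (b := h.yR τ) (h.reg2_T hτ)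
    (fun s hs => by
      refine h.alg_reg (b := yB τ) (fun h0 => ?_) (h.coe_y ▸ hs)
      obtain ⟨m, hm⟩ := (reg2_ty hτ).2 1 0 (by simp [h0])
      exact t_mem (IsUnit.of_mul_eq_one m hm.symm))
    (h.contract_one hτ) n n r c d (by
      simp only [Subring.subtype_apply, coe_t, coe_y, ← h2, map_pow]
      ring)
  exact add_mem (Ideal.mul_mem_right _ _ (Ideal.pow_mem_pow h.tR_mem n))
    (Ideal.mul_mem_right _ _ (Ideal.pow_mem_pow (h.yR_mem hτ) n))

theorem iso : Nonempty (T ≃+* AdicCompletion (maximalIdeal (h.R τ)) (h.R τ)) := by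
  have hm : ∀ n, (maximalIdeal (h.R τ) ^ n).map (algebraMap (h.R τ) T) = maximalIdeal T ^ n :=
    fun n => by rw [Ideal.map_pow, h.map_max hτ]
  have hres : ∀ s : T, ∃ r : h.R τ, s - algebraMap (h.R τ) T r ∈
      (maximalIdeal (h.R τ)).map (algebraMap (h.R τ) T) := by
    rw [h.map_max hτ]
    exact h.res_R
  refine exists_iso _ (fun n r hr => ?_) (dense _ hres) (fun s hs => ?_) fun f hf => ?_
  · have key : ∀ m, ∃ r' ∈ maximalIdeal (h.R τ) ^ n, algebraMap (h.R τ) T (r - r') ∈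
        (maximalIdeal (h.R τ) ^ (n + m)).map (algebraMap (h.R τ) T) := by
      intro m
      induction m with
      | zero => exact ⟨0, zero_mem _, by simpa using hr⟩
      | succ m ih =>
        obtain ⟨r', hr', h1⟩ := ih
        obtain ⟨r'', hr'', h2⟩ := dense_pow _ hres _ _ h1
        refine ⟨r' + r'', add_mem hr' (Ideal.pow_le_pow_right (Nat.le_add_right n m) hr''), ?_⟩
        rwa [← add_assoc, pow_succ, ← sub_sub, map_sub]
    obtain ⟨r', hr', h1⟩ := key (n + 1)
    rw [hm] at h1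
    simpa using add_mem (h.contract_deep hτ n (r - r') h1) hr'
  · have := h.noeth
    have h2 : s ∈ ⨅ n : ℕ, maximalIdeal T ^ n := by
      rw [Ideal.mem_iInf]
      exact fun n => hm n ▸ hs n
    rwa [Ideal.iInf_pow_eq_bot_of_isLocalRing _ (maximalIdeal.isMaximal T).ne_top] at h2
  · simp only [hm] at hf ⊢
    exact h.precomplete f hf

end Nodal

end Pool.Agent.H482Z.BCM
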