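import Pool.Agent.H482Z.BCM.Model

set_option autoImplicit false

/-!
The two-dimensional local ring `R` inside `T`.
-/

namespace Pool.Agent.H482Z.BCM

universe u

open Polynomial IsLocalRing

variable {k : Type u} [Field k] {τ : PowerSeries k}

namespace Nodal

variable {T : Type u} [CommRing T] [Algebra (B k) T] (h : Nodal k T)

variable (τ) in
/-- the fractions `f / s` lying in `T` whose denominator is a power of `t` times a unit of `T` -/
def R : Subring T where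
  carrier := {r | ∃ (s f : k[X][X][X]) (n : ℕ) (v : T), IsUnit v ∧
    h.ev τ s = algebraMap (B k) T (t k) ^ n * v ∧ h.ev τ s * r = h.ev τ f}
  mul_mem' := by
    rintro r r' ⟨s, f, n, v, hv, h1, h2⟩ ⟨s', f', n', v', hv', h1', h2'⟩
    refine ⟨s * s', f * f', n + n', v * v', hv.mul hv', ?_, ?_⟩
    · rw [map_mul, h1, h1']; ring
    · rw [map_mul, map_mul, ← h2, ← h2']; ring
  one_mem' := ⟨1, 1, 0, 1, isUnit_one, by simp, by simp⟩
  add_mem' := by
    rintro r r' ⟨s, f, n, v, hv, h1, h2⟩ ⟨s', f', n', v', hv', h1', h2'⟩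
    refine ⟨s * s', f * s' + f' * s, n + n', v * v', hv.mul hv', ?_, ?_⟩
    · rw [map_mul, h1, h1']; ring
    · rw [map_add, map_mul, map_mul, map_mul, ← h2, ← h2']; ring
  zero_mem' := ⟨1, 0, 0, 1, isUnit_one, by simp, by simp⟩
  neg_mem' := by
    rintro r ⟨s, f, n, v, hv, h1, h2⟩
    exact ⟨s, -f, n, v, hv, h1, by rw [map_neg (h.ev τ), ← h2]; ring⟩

theorem ev_mem (f : k[X][X][X]) : h.ev τ f ∈ h.R τ :=
  ⟨1, f, 0, 1, isUnit_one, by simp, by simp⟩

variable (τ) in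
/-- evaluation with values in `R` -/
noncomputable def evR : k[X][X][X] →+* h.R τ := (h.ev τ).codRestrict _ h.ev_mem

variable (τ) in
/-- the element `t` of `R` -/
noncomputable def tR : h.R τ := h.evR τ (C (C X))

variable (τ) in
/-- the element `y` of `R` -/
noncomputable def yR : h.R τ := h.evR τ (C X)

variable (τ) in
/-- the element `z` of `R` -/
noncomputable def zR : h.R τ := h.evR τ X

variable (τ) in
/-- polynomials in `y` -/
noncomputable def PR : k[X] →+* h.R τ := (h.evR τ).comp (C.comp (mapRingHom C))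

theorem coe_evR (f : k[X][X][X]) : (h.evR τ f : T) = h.ev τ f := rfl

theorem ev_t : h.ev τ (C (C X)) = algebraMap (B k) T (t k) := by rw [ev_C, evB_t]

theorem coe_t : (h.tR τ : T) = algebraMap (B k) T (t k) := h.ev_t

theorem coe_y : (h.yR τ : T) = algebraMap (B k) T (yB τ) := by
  rw [yR, coe_evR, ev_C, evB_X]

theorem coe_z : (h.zR τ : T) = h.z := h.ev_X

theorem coe_P (a : k[X]) : (h.PR τ a : T) = h.ev τ (C (a.map C)) := rfl

theorem PR_X : h.PR τ X = h.yR τ := by simp [PR, yR]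

include h in
theorem t_reg (n : ℕ) {a b : T}
    (hab : algebraMap (B k) T (t k) ^ n * a = algebraMap (B k) T (t k) ^ n * b) : a = b := by
  refine sub_eq_zero.mp (h.alg_reg (pow_ne_zero n t_ne) ?_)
  rw [map_pow, mul_sub, hab, sub_self]

theorem div_mem (n : ℕ) {c : T} (hc : algebraMap (B k) T (t k) ^ n * c ∈ h.R τ) : c ∈ h.R τ := by
  obtain ⟨s, f, m, v, hv, h1, h2⟩ := hc
  refine ⟨s * C (C X) ^ n, f, m + n, v, hv, ?_, ?_⟩
  · rw [map_mul, map_pow, ev_t, h1]; ring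
  · rw [map_mul, map_pow, ev_t, ← h2]; ring

theorem t_dvd_iff (n : ℕ) {r : h.R τ} :
    h.tR τ ^ n ∣ r ↔ algebraMap (B k) T (t k) ^ n ∣ (r : T) := by
  constructor
  · intro hr
    simpa [coe_t] using map_dvd (h.R τ).subtype hr
  · rintro ⟨c, hc⟩
    refine ⟨⟨c, h.div_mem n (hc ▸ r.2)⟩, Subtype.ext ?_⟩
    simp [coe_t, hc]

theorem unit_iff {r : h.R τ} : IsUnit r ↔ IsUnit (r : T) := by
  refine ⟨fun hr => hr.map (h.R τ).subtype, fun hr => ?_⟩
  obtain ⟨s, f, n, v, hv, h1, h2⟩ := r.2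
  obtain ⟨c, hc⟩ := hr.exists_right_inv
  refine IsUnit.of_mul_eq_one ⟨c, f, s, n, v * r, hv.mul hr, ?_, ?_⟩ (Subtype.ext hc)
  · rw [← h2, h1]; ring
  · rw [← h2, mul_assoc, hc, mul_one]

theorem frac (r : h.R τ) : ∃ (f : k[X][X][X]) (n : ℕ) (v : h.R τ), IsUnit v ∧
    ∃ s, h.evR τ s = h.tR τ ^ n * v ∧ h.tR τ ^ n * v * r = h.evR τ f := by
  obtain ⟨s, f, n, v, hv, h1, h2⟩ := r.2
  refine ⟨f, n, ⟨v, h.div_mem n (h1 ▸ h.ev_mem s)⟩, h.unit_iff.mpr hv, s, Subtype.ext ?_,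
    Subtype.ext ?_⟩
  · simp [coe_t, coe_evR, h1]
  · simp [coe_t, coe_evR, ← h1, h2]

theorem rel_N (N : ℕ) : h.tR τ ^ N ∣ h.evR τ (Gp (X + C (PowerSeries.trunc N τ))) :=
  (h.t_dvd_iff N).mpr (h.ev_GN N)

variable [IsLocalRing T]

instance : IsLocalRing (h.R τ) := by
  apply IsLocalRing.of_nonunits_add
  intro a b ha hb
  rw [mem_nonunits_iff, h.unit_iff] at *
  exact add_mem (show (a : T) ∈ maximalIdeal T from ha) hb

theorem mem_maxR {r : h.R τ} : r ∈ maximalIdeal (h.R τ) ↔ (r : T) ∈ maximalIdeal T := by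
  rw [mem_maximalIdeal, mem_maximalIdeal, mem_nonunits_iff, mem_nonunits_iff, h.unit_iff]

theorem tR_mem : h.tR τ ∈ maximalIdeal (h.R τ) := by
  rw [mem_maxR, coe_t, h.alg_mem]; exact t_mem

theorem zR_mem : h.zR τ ∈ maximalIdeal (h.R τ) := by
  rw [mem_maxR, coe_z]; exact h.z_mem

omit [IsLocalRing T] in
theorem tR_ne : h.tR τ ≠ 0 := by
  intro h0
  have := congrArg Subtype.val h0
  rw [coe_t] at this
  exact t_ne (h.alg_inj (this.trans (map_zero _).symm))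

theorem t_split {r : h.R τ} (hr : r ≠ 0) : ∃ (i : ℕ) (r' : h.R τ), r = h.tR τ ^ i * r' ∧
    ¬ h.tR τ ∣ r' := by
  have := h.noeth
  by_contra hc
  push Not at hc
  have h1 : ∀ n, h.tR τ ^ n ∣ r := by
    intro n
    induction n with
    | zero => simp
    | succ n ih =>
      obtain ⟨c, rfl⟩ := ih
      rw [pow_succ]
      exact mul_dvd_mul_left _ (hc n c rfl)
  have h2 : (r : T) ∈ ⨅ n : ℕ, maximalIdeal T ^ n := by
    rw [Ideal.mem_iInf]
    intro n
    exact Ideal.mem_of_dvd _ ((h.t_dvd_iff n).mp (h1 n))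
      (Ideal.pow_mem_pow (h.alg_mem.mpr t_mem) n)
  rw [Ideal.iInf_pow_eq_bot_of_isLocalRing _ (maximalIdeal.isMaximal T).ne_top] at h2
  exact hr (Subtype.ext h2)

variable (hτ : PowerSeries.constantCoeff τ = 0)
include hτ

theorem yR_mem : h.yR τ ∈ maximalIdeal (h.R τ) := by
  rw [mem_maxR, coe_y, h.alg_mem]; exact yB_mem hτ

omit [IsLocalRing T] in
theorem rel_one : h.tR τ ∣ h.zR τ ^ 2 + h.yR τ * h.zR τ - h.yR τ ^ 3 := by
  have := h.rel_N (τ := τ) 1
  rw [PowerSeries.trunc_one_left, PowerSeries.coeff_zero_eq_constantCoeff, hτ] at this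
  simpa [Gp, yR, zR, map_sub (h.evR τ)] using this

theorem normalR (r : h.R τ) : ∃ σ : h.R τ, IsUnit σ ∧ ∃ (a b : k[X]) (c : h.R τ),
    σ * r = h.PR τ a + h.PR τ b * h.zR τ + h.tR τ * c := by
  obtain ⟨s, f, n, v, hv, h1, h2⟩ := r.2
  obtain ⟨a, b, c, h3⟩ := h.normal hτ (n := n) (f := s) ⟨v, h1⟩
  obtain ⟨a', b', c', h4⟩ := h.normal hτ (n := n) (f := f) ⟨v * r, by rw [← h2, h1, mul_assoc]⟩
  have h5 := h.t_reg n (h1.symm.trans h3)
  have h6 := h.t_reg n (((mul_assoc _ _ _).symm.trans ((congrArg (· * (r : T)) h1).symm.trans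
    h2)).trans h4)
  have hσ : IsUnit (h.PR τ a + h.PR τ b * h.zR τ) := by
    by_contra hc
    have h7 : h.PR τ a + h.PR τ b * h.zR τ ∈ maximalIdeal (h.R τ) := hc
    have h8 := add_mem (h.mem_maxR.mp h7) (Ideal.mul_mem_right c _ (h.alg_mem.mpr t_mem))
    simp only [Subring.coe_add, Subring.coe_mul, coe_P, coe_z, ← h5] at h8
    exact h8 hv
  obtain ⟨d, hd⟩ := (h.t_dvd_iff 1 (r := (h.PR τ a + h.PR τ b * h.zR τ) * r -
      (h.PR τ a' + h.PR τ b' * h.zR τ))).mpr ⟨c' - c * r, by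
    simp only [Subring.coe_add, Subring.coe_mul, coe_P, coe_z, AddSubgroupClass.coe_sub]
    linear_combination h6 - (r : T) * h5⟩
  exact ⟨_, hσ, a', b', d, by linear_combination hd⟩

theorem y_pow_mem {r : h.R τ} (hr : ¬ h.tR τ ∣ r) :
    ∃ (j : ℕ) (c d : h.R τ), h.yR τ ^ j = r * c + h.tR τ * d := by
  obtain ⟨σ, hσ, a, b, c, h1⟩ := h.normalR hτ r
  obtain ⟨e, he⟩ := h.rel_one hτ
  have hN : a ^ 2 - a * b * X - b ^ 2 * X ^ 3 ≠ 0 := by
    intro h0
    obtain ⟨rfl, rfl⟩ := norm_ne h0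
    exact hr (hσ.dvd_mul_left.mp ⟨c, by simpa using h1⟩)
  obtain ⟨j, q, hq, hq'⟩ := X_split hN
  obtain ⟨v, hv⟩ := (unit_of_not_dvd (h.PR τ) (h.PR_X ▸ h.yR_mem hτ) hq').exists_right_inv
  have h2 := congrArg (h.PR τ) hq
  simp only [map_sub, map_mul, map_pow, PR_X] at h2
  refine ⟨j, v * σ * (h.PR τ a - h.PR τ b * (h.yR τ + h.zR τ)),
    v * (h.PR τ b ^ 2 * e - c * (h.PR τ a - h.PR τ b * (h.yR τ + h.zR τ))), ?_⟩
  linear_combination (-(h.yR τ ^ j)) * hv - v * h2 -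
    v * (h.PR τ a - h.PR τ b * (h.yR τ + h.zR τ)) * h1 + v * h.PR τ b ^ 2 * he

omit [IsLocalRing T] in
theorem reg2_T : Reg2 T (h.tR τ : T) (h.yR τ : T) := by
  rw [coe_t, coe_y]
  exact h.reg2_of_B (reg2_ty hτ) t_ne

theorem not_dvd_y (j : ℕ) : ¬ h.tR τ ∣ h.yR τ ^ j := by
  rintro ⟨c, hc⟩
  obtain ⟨m, hm⟩ := (h.reg2_T hτ).pow j 1 c (by simpa using congrArg Subtype.val hc)
  exact h.mem_maxR.mp h.tR_mem (IsUnit.of_mul_eq_one m hm.symm)

theorem t_prime : Prime (h.tR τ) := by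
  refine ⟨h.tR_ne, h.tR_mem, fun a b hab => ?_⟩
  by_contra hc
  push Not at hc
  obtain ⟨i, c, d, h1⟩ := h.y_pow_mem hτ hc.1
  obtain ⟨j, c', d', h2⟩ := h.y_pow_mem hτ hc.2
  obtain ⟨e, he⟩ := hab
  refine h.not_dvd_y hτ (i + j) ⟨e * c * c' + d * (b * c') + d' * (a * c) + h.tR τ * d * d', ?_⟩
  rw [pow_add, h1, h2]
  linear_combination c * c' * he

theorem isDomain : IsDomain (h.R τ) := by
  have : NoZeroDivisors (h.R τ) := ⟨fun {a b} hab => by
    by_contra hc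
    push Not at hc
    obtain ⟨i, a', rfl, ha⟩ := h.t_split hc.1
    obtain ⟨j, b', rfl, hb⟩ := h.t_split hc.2
    have h1 : a' * b' = 0 := by
      refine Subtype.ext (h.t_reg (i + j) ?_)
      have := congrArg Subtype.val hab
      simp only [Subring.coe_mul, SubmonoidClass.coe_pow, coe_t, ZeroMemClass.coe_zero] at this ⊢
      linear_combination this
    rcases (h.t_prime hτ).dvd_or_dvd (a := a') (b := b') (h1 ▸ dvd_zero _) with h2 | h2
    · exact ha h2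
    · exact hb h2⟩
  exact NoZeroDivisors.to_isDomain _

theorem max_R {r : h.R τ} (hr : r ∈ maximalIdeal (h.R τ)) :
    ∃ a b c, r = h.tR τ * a + h.yR τ * b + h.zR τ * c := by
  obtain ⟨σ, hσ, a, b, c, h1⟩ := h.normalR hτ r
  obtain ⟨v, hv⟩ := hσ.exists_left_inv
  have h2 : h.PR τ a ∈ maximalIdeal (h.R τ) := by
    have := sub_mem (sub_mem (Ideal.mul_mem_left _ σ hr) (Ideal.mul_mem_right c _ h.tR_mem))
      (Ideal.mul_mem_left _ (h.PR τ b) h.zR_mem)
    rwa [h1, add_sub_cancel_right, add_sub_cancel_right] at this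
  obtain ⟨a', rfl⟩ : X ∣ a := by
    by_contra hc
    exact h2 (unit_of_not_dvd (h.PR τ) (h.PR_X ▸ h.yR_mem hτ) hc)
  rw [map_mul, PR_X] at h1
  exact ⟨v * c, v * h.PR τ a', v * h.PR τ b, by linear_combination v * h1 - r * hv⟩

theorem prime_t {p : Ideal (h.R τ)} (hp : p.IsPrime) (ht : h.tR τ ∈ p) (hy : h.yR τ ∈ p) :
    maximalIdeal (h.R τ) ≤ p := by
  intro r hr
  obtain ⟨a, b, c, rfl⟩ := h.max_R hτ hr
  obtain ⟨e, he⟩ := h.rel_one hτ
  have hz : h.zR τ ∈ p := hp.mem_of_pow_mem 2 (by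
    rw [show h.zR τ ^ 2 = h.tR τ * e + h.yR τ * (h.yR τ ^ 2 - h.zR τ) by linear_combination he]
    exact add_mem (Ideal.mul_mem_right _ _ ht) (Ideal.mul_mem_right _ _ hy))
  exact add_mem (add_mem (Ideal.mul_mem_right _ _ ht) (Ideal.mul_mem_right _ _ hy))
    (Ideal.mul_mem_right _ _ hz)

theorem reg2_R : Reg2 (h.R τ) (h.tR τ) (h.yR τ) := by
  have := h.isDomain hτ
  refine ⟨fun m hm => (mul_eq_zero.mp hm).resolve_left h.tR_ne, fun m m' hm => ?_⟩
  exact ((h.t_prime hτ).dvd_or_dvd ⟨m', hm⟩).resolve_left (by simpa using h.not_dvd_y hτ 1)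

theorem contract_one (r : h.R τ) (c d : T) (hr : (r : T) = h.tR τ * c + h.yR τ * d) :
    ∃ c' d', r = h.tR τ * c' + h.yR τ * d' := by
  obtain ⟨σ, hσ, a, b, e, h1⟩ := h.normalR hτ r
  obtain ⟨v, hv⟩ := hσ.exists_left_inv
  have h2 := congrArg Subtype.val h1
  simp only [Subring.coe_add, Subring.coe_mul, coe_P, coe_z, hr, coe_t, coe_y, ev_C] at h2
  have h3 := h.coord (a := evB τ (a.map C)) (b := evB τ (b.map C)) (c := t k) (d := yB τ)
    (s := σ * c - e) (s' := σ * d) (by linear_combination -h2)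
  have key : ∀ a : k[X], (∃ e e', evB τ (a.map C) = t k * e + yB τ * e') → X ∣ a := by
    rintro a ⟨e, e', he⟩
    by_contra hc
    have h4 := unit_of_not_dvd ((evB τ).comp (mapRingHom C)) (by simpa [evB_X] using yB_mem hτ) hc
    have h5 := add_mem (Ideal.mul_mem_right e _ t_mem) (Ideal.mul_mem_right e' _ (yB_mem hτ))
    exact (he ▸ h5) h4
  obtain ⟨a', rfl⟩ := key a h3.1
  obtain ⟨b', rfl⟩ := key b h3.2
  simp only [map_mul, PR_X] at h1
  exact ⟨v * e, v * (h.PR τ a' + h.PR τ b' * h.zR τ), by linear_combination v * h1 - r * hv⟩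

end Nodal

end Pool.Agent.H482Z.BCM
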