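import Pool.Agent.H482Z.BCM.Low

set_option autoImplicit false

/-!
A factorial ring with completion `T` has unbounded Cohen-Macaulay type.
-/

namespace Pool.Agent.H482Z.BCM

universe u

open IsLocalRing Submodule TensorProduct
open scoped ENNReal

variable {k : Type u} [Field k]

theorem dense_pow {R T : Type u} [CommRing R] [CommRing T] [Algebra R T] (I : Ideal R)
    (hres : ∀ z : T, ∃ r : R, z - algebraMap R T r ∈ I.map (algebraMap R T)) (J : Ideal R) :
    ∀ z ∈ J.map (algebraMap R T), ∃ r ∈ J,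
      z - algebraMap R T r ∈ (J * I).map (algebraMap R T) := by
  intro z hz
  induction hz using Submodule.span_induction with
  | mem x hx =>
    obtain ⟨r, hr, rfl⟩ := hx
    exact ⟨r, hr, by simp⟩
  | zero => exact ⟨0, zero_mem _, by simp⟩
  | add x y _ _ hx hy =>
    obtain ⟨r, hr, h⟩ := hx
    obtain ⟨r', hr', h'⟩ := hy
    refine ⟨r + r', add_mem hr hr', ?_⟩
    convert add_mem h h' using 1
    rw [map_add]; ring
  | smul c x hxJ hx =>
    obtain ⟨r, hr, h⟩ := hx
    obtain ⟨r', h'⟩ := hres c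
    refine ⟨r' * r, Ideal.mul_mem_left _ _ hr, ?_⟩
    have h1 : x * (c - algebraMap R T r') ∈ (J * I).map (algebraMap R T) := by
      rw [Ideal.map_mul]
      exact Ideal.mul_mem_mul hxJ h'
    convert add_mem h1 (Ideal.mul_mem_left _ (algebraMap R T r') h) using 1
    rw [map_mul, smul_eq_mul]; ring

theorem dense {R T : Type u} [CommRing R] [CommRing T] [Algebra R T] (I : Ideal R)
    (hres : ∀ z : T, ∃ r : R, z - algebraMap R T r ∈ I.map (algebraMap R T)) (j : ℕ) (z : T) :
    ∃ r : R, z - algebraMap R T r ∈ (I ^ j).map (algebraMap R T) := by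
  induction j with
  | zero => exact ⟨0, by simp [Ideal.map_top]⟩
  | succ j ih =>
    obtain ⟨r, hr⟩ := ih
    obtain ⟨r', -, h⟩ := dense_pow I hres _ _ hr
    refine ⟨r + r', ?_⟩
    rw [pow_succ]
    convert h using 1
    rw [map_add]; ring

namespace Nodal

variable {T : Type u} [CommRing T] [Algebra (B k) T] [IsLocalRing T] (h : Nodal k T)
variable {R : Type u} [CommRing R] [IsLocalRing R] [IsNoetherianRing R] [IsDomain R]
  [Algebra R T] [Module.Flat R T]

theorem good_tensor (hm : (maximalIdeal R).map (algebraMap R T) = maximalIdeal T)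
    (hp : ∀ p : Ideal R, p.IsPrime → p = ⊥ ∨ p = maximalIdeal R ∨
      ∃ f, f ≠ 0 ∧ p = Ideal.span {f})
    (M : Type u) [AddCommGroup M] [Module R M] [hM : Module.Finite R M] :
    Good h.x h.y (T ⊗[R] M) := by
  induction hM using IsNoetherianRing.induction_on_isQuotientEquivQuotientPrime R with
  | subsingleton N =>
    have h1 : ∀ x y : T, hh x y (T ⊗[R] N) = 0 := fun x y => rel_eq_zero fun z _ => by
      rw [Subsingleton.elim z 0]; exact zero_mem _
    exact ⟨by rw [h1, h1], by rw [h1]; simp⟩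
  | quotient N p e =>
    refine Good.equiv ?_ (e.baseChange R T _ _ ≪≫ₗ
      (Algebra.TensorProduct.quotIdealMapEquivTensorQuot T p.1).symm.toLinearEquiv)
    rcases hp p.1 p.2 with h1 | h1 | ⟨f, hf, h1⟩
    · exact h.good_self.equiv (Submodule.quotEquivOfEqBot _ (by rw [h1, Ideal.map_bot]))
    · exact h.good_res.equiv (Submodule.quotEquivOfEq _ _ (by rw [h1, hm]))
    · refine Good.right (LinearMap.lsmul T T (algebraMap R T f)) (Submodule.mkQ _) ?_
        (Submodule.mkQ_surjective _) ?_ h.mul h.good_self h.good_self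
      · exact IsSMulRegular.of_flat (IsSMulRegular.of_right_eq_zero_of_smul fun z hz =>
          (mul_eq_zero.mp hz).resolve_left hf)
      · intro z
        rw [h1, Ideal.map_span, Set.image_singleton, Submodule.mkQ_apply,
          Submodule.Quotient.mk_eq_zero, Ideal.mem_span_singleton']
        simp [mul_comm]
  | exact N₁ N₂ N₃ f g hf hg hfg h₁ h₃ =>
    exact Good.mid (f.baseChange T) (g.baseChange T)
      (Module.Flat.lTensor_preserves_injective_linearMap f hf)
      (LinearMap.lTensor_surjective T hg) (lTensor_exact T hfg hg) h.mul h₁ h₃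

omit [IsDomain R] in
theorem exists_syz (hm : (maximalIdeal R).map (algebraMap R T) = maximalIdeal T)
    (hres : ∀ z : T, ∃ r : R, z - algebraMap R T r ∈ maximalIdeal T) (n : ℕ) :
    ∃ (g : ℕ) (π : (Fin g → R) →ₗ[R] R),
      h.P1 n (T ⊗[R] LinearMap.ker π) ∧ h.P2 (T ⊗[R] LinearMap.ker π) := by
  let A : Ideal T := (maximalIdeal (B k) ^ (n + 1)).comap h.φ₁
  let A₀ : Ideal R := A.comap (algebraMap R T)
  obtain ⟨g, π, hπ⟩ := (Submodule.fg_iff_exists_fin_linearMap R R).mp
    (IsNoetherian.noetherian A₀)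
  refine ⟨g, π, h.syz ((LinearMap.ker π).subtype.baseChange T)
    ((AlgebraTensorModule.rid R T T).toLinearMap ∘ₗ π.baseChange T)
    (Module.Flat.lTensor_preserves_injective_linearMap _ (LinearMap.ker π).injective_subtype)
    ?_ ?_ ?_⟩
  · intro z
    rw [LinearMap.comp_apply, LinearEquiv.coe_coe, LinearEquiv.map_eq_zero_iff]
    exact Module.Flat.lTensor_exact T (LinearMap.exact_subtype_ker_map π) z
  · intro u hu
    let e := TensorProduct.piScalarRight R T T (Fin g)
    have h1 : ∀ i, ∃ c, e u i = h.x * c := fun i => h.ann_y (by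
      rw [← smul_eq_mul, ← Pi.smul_apply, ← map_smul, hu, map_zero, Pi.zero_apply])
    choose c hc using h1
    refine ⟨e.symm c, e.injective ?_⟩
    rw [map_smul, LinearEquiv.apply_symm_apply]
    exact funext hc
  · have hle : maximalIdeal T ^ (n + 1) ≤ A := fun z hz => h.φ₁_pow hz
    intro z
    constructor
    · rintro ⟨u, rfl⟩
      change _ ∈ A
      induction u with
      | zero => simp
      | add a b ha hb => rw [map_add]; exact add_mem ha hb
      | tmul c v =>
        have h1 : π v ∈ A₀ := hπ ▸ LinearMap.mem_range_self π v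
        simp only [LinearMap.comp_apply, LinearMap.baseChange_tmul, LinearEquiv.coe_coe,
          AlgebraTensorModule.rid_tmul, Algebra.smul_def]
        exact Ideal.mul_mem_right _ _ h1
    · intro hz
      have h1 : A₀.map (algebraMap R T) ≤ LinearMap.range
          ((AlgebraTensorModule.rid R T T).toLinearMap ∘ₗ π.baseChange T) := by
        rw [Ideal.map_le_iff_le_comap]
        intro r hr
        obtain ⟨v, rfl⟩ : r ∈ LinearMap.range π := hπ ▸ hr
        exact ⟨1 ⊗ₜ v, by simp [Algebra.smul_def]⟩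
      apply h1
      obtain ⟨r, hr⟩ := dense (maximalIdeal R) (hm ▸ hres) (n + 1) z
      have h2 : z - algebraMap R T r ∈ A := hle (by rwa [Ideal.map_pow, hm] at hr)
      have h3 : r ∈ A₀ := by
        have := sub_mem (show z ∈ A from hz) h2
        rwa [sub_sub_cancel] at this
      have h4 : (maximalIdeal R ^ (n + 1)).map (algebraMap R T) ≤ A₀.map (algebraMap R T) := by
        refine Ideal.map_mono (Ideal.map_le_iff_le_comap.mp ?_)
        rwa [Ideal.map_pow, hm]
      have := add_mem (h4 hr) (Ideal.mem_map_of_mem (algebraMap R T) h3)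
      rwa [sub_add_cancel] at this

omit [IsLocalRing T] [IsLocalRing R] [IsDomain R] [Module.Flat R T] in
theorem exists_indec {n : ℕ} {M : Type u} [AddCommGroup M] [Module R M] [Module.Finite R M]
    (K : Submodule R M) :
    ∀ (M' : Type u) [AddCommGroup M'] [Module R M'] (i : M' →ₗ[R] M) (p : M →ₗ[R] M'),
      (∀ v, p (i v) = v) → LinearMap.ker p = K → h.P1 n (T ⊗[R] M') →
      ∃ (M'' : Type u) (_ : AddCommGroup M'') (_ : Module R M'') (i : M'' →ₗ[R] M)
        (p : M →ₗ[R] M''), (∀ v, p (i v) = v) ∧ h.P1 n (T ⊗[R] M'') ∧ IsIndec R M'' := by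
  induction K using WellFoundedGT.induction with
  | ind K ih =>
  intro M' _ _ i p hp hK h1
  by_cases hI : IsIndec R M'
  · exact ⟨M', inferInstance, inferInstance, i, p, hp, h1, hI⟩
  have hnt : Nontrivial M' := by
    by_contra hc
    rw [not_nontrivial_iff_subsingleton] at hc
    obtain ⟨v, -, hv⟩ := h1
    exact hv 0 (Subsingleton.elim _ _)
  simp only [IsIndec, hnt, true_and, not_forall, not_or] at hI
  obtain ⟨A₁, A₂, hc, hA₁, hA₂⟩ := hI
  have key : ∀ (A₁ A₂ : Submodule R M') (hc : IsCompl A₁ A₂), A₂ ≠ ⊥ → h.P1 n (T ⊗[R] A₁) →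
      ∃ (M'' : Type u) (_ : AddCommGroup M'') (_ : Module R M'') (i : M'' →ₗ[R] M)
        (p : M →ₗ[R] M''), (∀ v, p (i v) = v) ∧ h.P1 n (T ⊗[R] M'') ∧ IsIndec R M'' := by
    intro A₁ A₂ hc hA₂ h2
    refine ih _ ?_ A₁ (i ∘ₗ A₁.subtype) (A₁.projectionOnto A₂ hc ∘ₗ p) (fun v => by simp [hp])
      rfl h2
    rw [← hK]
    refine lt_of_le_of_ne (LinearMap.ker_le_ker_comp _ _) fun he => hA₂ ?_
    rw [eq_bot_iff]
    intro a ha
    have h3 : i a ∈ LinearMap.ker (A₁.projectionOnto A₂ hc ∘ₗ p) := by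
      rw [LinearMap.mem_ker, LinearMap.comp_apply, hp]
      exact Submodule.projectionOnto_apply_right hc ⟨a, ha⟩
    rw [← he, LinearMap.mem_ker, hp] at h3
    exact h3
  rcases P1.split h h1 (A₁.subtype.baseChange T) ((A₁.projectionOnto A₂ hc).baseChange T)
    (A₂.subtype.baseChange T) ((A₂.projectionOnto A₁ hc.symm).baseChange T) (fun v => by
      induction v with
      | zero => simp
      | add a b ha hb =>
        simp only [map_add]
        conv_rhs => rw [← ha, ← hb]
        abel
      | tmul c v =>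
        simp only [LinearMap.baseChange_tmul, ← tmul_add]
        congr 1
        exact Submodule.projection_add_projection_eq_self hc v) with h2 | h2
  · exact key A₁ A₂ hc hA₂ h2
  · exact key A₂ A₁ hc.symm hA₁ h2

include h in
theorem unbounded (hm : (maximalIdeal R).map (algebraMap R T) = maximalIdeal T)
    (hres : ∀ z : T, ∃ r : R, z - algebraMap R T r ∈ maximalIdeal T)
    (hp : ∀ p : Ideal R, p.IsPrime → p = ⊥ ∨ p = maximalIdeal R ∨
      ∃ f, f ≠ 0 ∧ p = Ideal.span {f})
    {a b : R} (ha : a ∈ maximalIdeal R) (hb : b ∈ maximalIdeal R) (hab : Reg2 R a b)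
    (hdim : ringKrullDim R = 2) : ¬ BoundedCMType R := by
  rintro ⟨C, hC⟩
  obtain ⟨g, π, h1, h2⟩ := h.exists_syz hm hres (5 * C + 4)
  obtain ⟨M, _, _, i, p, hip, h3, hI⟩ := h.exists_indec _ (LinearMap.ker π) LinearMap.id
    LinearMap.id (fun _ => rfl) rfl h1
  have hker : Reg2 (LinearMap.ker π) a b := by
    refine ⟨fun m hm => Subtype.ext (funext fun j => hab.1 _ ?_), fun m m' hm => ?_⟩
    · exact congrFun (congrArg Subtype.val hm) j
    · choose c hc using fun j => hab.2 _ _ (congrFun (congrArg Subtype.val hm) j)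
      have h4 : (m : Fin g → R) = a • c := funext hc
      refine ⟨⟨c, hab.1 _ ?_⟩, Subtype.ext h4⟩
      rw [← map_smul, ← h4]
      exact m.2
  have hM : Reg2 M a b := hker.retract i p hip
  have : Module.Finite R M := Module.Finite.of_surjective p fun v => ⟨i v, hip v⟩
  have := hI.1
  have hMCM : IsMCM R M := ⟨inferInstance, [a, b], by simpa using ⟨ha, hb⟩,
    (IsLocalRing.isRegular_iff_isWeaklyRegular_of_subset_maximalIdeal
      (by simpa using ⟨ha, hb⟩)).mpr (reg2_iff.mpr hM), by rw [hdim]; rfl⟩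
  have hmem : ∀ r ∈ maximalIdeal R, algebraMap R T r ∈ maximalIdeal T :=
    fun r hr => hm ▸ Ideal.mem_map_of_mem _ hr
  have : IsLocalHom (algebraMap R T) := ⟨fun r hr => by
    by_contra hc
    exact hmem r hc hr⟩
  have hN : Reg2 (T ⊗[R] M) (algebraMap R T a) (algebraMap R T b) :=
    reg2_iff.mp ((reg2_iff.mpr hM).of_flat_of_isBaseChange (TensorProduct.isBaseChange R M T))
  have h4 : h.P2 (T ⊗[R] M) := P2.retract h h2 (i.baseChange T) (p.baseChange T) fun v => by
    rw [← LinearMap.comp_apply, ← LinearMap.baseChange_comp,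
      show p ∘ₗ i = LinearMap.id from LinearMap.ext hip, LinearMap.baseChange_id,
      LinearMap.id_apply]
  have hlow := h.low (hmem a ha) (hmem b hb) hN (h.good_tensor hm hp M) h3 h4
  have hlen : ∀ j, Module.length T ((T ⊗[R] M) ⧸
      (maximalIdeal T ^ j • ⊤ : Submodule T (T ⊗[R] M))) =
      Module.length R (M ⧸ (maximalIdeal R ^ j • ⊤ : Submodule R M)) := by
    intro j
    have : IsSimpleModule T (T ⧸ maximalIdeal T) :=
      isSimpleModule_iff_quot_maximal.mpr ⟨_, inferInstance, ⟨LinearEquiv.refl _ _⟩⟩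
    rw [← hm, ← Ideal.map_pow, (tensorQuotMapSMulEquivTensorQuot M T _).length_eq,
      IsLocalRing.length_baseChange, hm, Module.length_eq_one T (T ⧸ maximalIdeal T), mul_one]
  have h5 : ((C + 1 : ℕ) : ℝ≥0∞) ≤ mult R M := by
    have hd : dimNat R = 2 := dimNat_aux hdim
    unfold mult
    rw [hd]
    refine Filter.le_limsup_of_frequently_le' (Filter.frequently_atTop.mpr fun m₀ => ?_)
    refine ⟨2 * (m₀ + 1) + 1, by omega, ?_⟩
    have h6 := ENat.toENNReal_le.mpr ((hlow (m₀ + 1)).trans (hlen _).le)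
    rw [ENNReal.le_div_iff_mul_le (by simp)
      (Or.inl (ENNReal.pow_ne_top (ENNReal.natCast_ne_top _)))]
    refine le_trans ?_ (mul_le_mul_right h6 _)
    rw [ENat.toENNReal_coe]
    norm_cast
    simp only [Nat.factorial_two]
    nlinarith [Nat.zero_le C, Nat.zero_le m₀, Nat.zero_le (C * m₀), Nat.zero_le (C * m₀ * m₀)]
  have h6 := h5.trans (hC M hMCM hI)
  norm_cast at h6
  omega

end Nodal

end Pool.Agent.H482Z.BCM
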